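import Pool.Agent.H70.MX.Law

/-!
# MX-11. The mixing time exists for a generating set, and is at least `1`

* `law_pos_closure`: for every `x` in the subgroup generated by the symmetric set `S` there is `t` with `0 < law S t x`:
  `Subgroup.closure_induction` (one: `t = 0`; mem: `law_one`, `t = 1`; mul: `law S (s + t) (x * y) ≥ law S s x * law S t y > 0`
  by `law_add`, the term of the sum with index `x`; inv: the laws are symmetric, `law S t x⁻¹ = law S t x`,
  by `law_eq_pw`, `iv_pw`, `law_one_symm`).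
* `law_pos_mono`: `law S (t + 1) x ≥ law S t x / 2` (`law_add S t 1` or `1 t`, the term with the neutral element,
  `law_one_one`), so positivity persists.
* `exists_tv`: the group is finite, so some `m` has `law S m x > 0` for all `x` (take the maximum of the times); with
  `c = |G| * min_x (law S m x) > 0` use `exists_mix` (in `Pool/Agent/H85/Mix/Basic.lean`).
* `tmix_spec`: `tvDist S (tmix S) ≤ 1/4` by `Nat.sInf_mem`.
* `tmix_pos`: `tvDist S 0 = 1 - 1 / |G| ≥ 1/2 > 1/4` for `|G| ≥ 2`: `law S 0 x = if x = 1 then 1 else 0`, so the sum of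
  absolute values is `(1 - 1/N) + (N - 1) / N`. Hence `tmix S ≠ 0`.
-/

set_option autoImplicit false
set_option linter.unusedSectionVars false

namespace Pool.Agent.H70.MX

open Finset Pool.Agent.H85.Mix
open scoped Classical

variable {G : Type} [Group G] [Fintype G]

theorem law_symm (S : Finset G) (hs : ∀ x ∈ S, x⁻¹ ∈ S) (t : ℕ) (x : G) :
    law S t x⁻¹ = law S t x := by
  have h := iv_pw (law_one_symm S hs) t
  rw [← law_eq_pw] at h
  exact congrFun h x

theorem law_add_ge (S : Finset G) (s t : ℕ) (x y : G) :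
    law S s x * law S t y ≤ law S (s + t) (x * y) := by
  rw [law_add]
  have h := Finset.single_le_sum (f := fun z => law S s z * law S t (z⁻¹ * (x * y)))
    (fun z _ => mul_nonneg (law_nonneg S s z) (law_nonneg S t _)) (Finset.mem_univ x)
  simpa using h

theorem law_pos_closure (S : Finset G) (hS : S.Nonempty) (hs : ∀ x ∈ S, x⁻¹ ∈ S) (x : G)
    (hx : x ∈ Subgroup.closure (S : Set G)) : ∃ t, 0 < law S t x := by
  induction hx using Subgroup.closure_induction with
  | mem y hy =>
    refine ⟨1, ?_⟩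
    rw [law_one, if_pos (Finset.mem_coe.1 hy)]
    have hS0 : (0 : ℝ) < S.card := by exact_mod_cast hS.card_pos
    have : (0 : ℝ) ≤ if y = 1 then 1 / 2 else 0 := by split_ifs <;> norm_num
    have h2 : (0 : ℝ) < 1 / (2 * (S.card : ℝ)) := by positivity
    linarith
  | one => exact ⟨0, by simp [law]⟩
  | mul y z _ _ ihy ihz =>
    obtain ⟨s, hs1⟩ := ihy
    obtain ⟨t, ht1⟩ := ihz
    exact ⟨s + t, lt_of_lt_of_le (mul_pos hs1 ht1) (law_add_ge S s t y z)⟩
  | inv y _ ihy =>
    obtain ⟨t, ht1⟩ := ihy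
    exact ⟨t, by rw [law_symm S hs]; exact ht1⟩

theorem law_pos_mono (S : Finset G) (x : G) (s t : ℕ) (hst : s ≤ t) (h : 0 < law S s x) :
    0 < law S t x := by
  induction t, hst using Nat.le_induction with
  | base => exact h
  | succ t _ ih =>
    have h1 := law_add_ge S t 1 x 1
    rw [mul_one] at h1
    have h2 := law_one_one S
    exact lt_of_lt_of_le (mul_pos ih (by linarith)) h1

theorem exists_tv (S : Finset G) (hS : S.Nonempty) (hs : ∀ x ∈ S, x⁻¹ ∈ S)
    (hgen : Subgroup.closure (S : Set G) = ⊤) : ∃ t, tvDist S t ≤ 1 / 4 := by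
  have h1 : ∀ x : G, ∃ t, 0 < law S t x := fun x =>
    law_pos_closure S hS hs x (by rw [hgen]; exact Subgroup.mem_top x)
  choose τ hτ using h1
  set m := Finset.univ.sup τ with hm
  have h2 : ∀ x, 0 < law S m x := fun x =>
    law_pos_mono S x (τ x) m (Finset.le_sup (Finset.mem_univ x)) (hτ x)
  obtain ⟨x0, _, hx0⟩ := Finset.exists_min_image (Finset.univ : Finset G) (law S m) ⟨1, Finset.mem_univ 1⟩
  have hN : (0 : ℝ) < Fintype.card G := by exact_mod_cast Fintype.card_pos
  refine exists_mix S hS m (law S m x0 * Fintype.card G) (mul_pos (h2 x0) hN) fun x => ?_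
  rw [mul_div_cancel_right₀ _ hN.ne']
  exact hx0 x (Finset.mem_univ x)

theorem tmix_spec (S : Finset G) (hS : S.Nonempty) (hs : ∀ x ∈ S, x⁻¹ ∈ S)
    (hgen : Subgroup.closure (S : Set G) = ⊤) : tvDist S (tmix S) ≤ 1 / 4 :=
  Nat.sInf_mem (s := {t : ℕ | tvDist S t ≤ 1 / 4}) (exists_tv S hS hs hgen)

theorem tmix_pos (S : Finset G) (hS : S.Nonempty) (hs : ∀ x ∈ S, x⁻¹ ∈ S)
    (hgen : Subgroup.closure (S : Set G) = ⊤) (hG : 2 ≤ Fintype.card G) : 1 ≤ tmix S := by
  rw [Nat.one_le_iff_ne_zero]
  intro h0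
  have h := tmix_spec S hS hs hgen
  rw [h0] at h
  unfold tvDist at h
  have hl : ∀ x : G, law S 0 x = if x = 1 then 1 else 0 := fun _ => rfl
  simp only [hl] at h
  have hN : (2 : ℝ) ≤ Fintype.card G := by exact_mod_cast hG
  have hu : 1 / (Fintype.card G : ℝ) ≤ 1 / 2 := by
    apply one_div_le_one_div_of_le <;> linarith
  have hu0 : 0 < 1 / (Fintype.card G : ℝ) := by positivity
  -- the term at `1` and the rest
  rw [← Finset.add_sum_erase _ _ (Finset.mem_univ (1 : G))] at h
  have h3 : ∑ x ∈ (Finset.univ : Finset G).erase 1,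
      |(if x = 1 then (1 : ℝ) else 0) - 1 / (Fintype.card G : ℝ)| =
      ((Fintype.card G : ℝ) - 1) * (1 / (Fintype.card G : ℝ)) := by
    rw [Finset.sum_congr rfl (g := fun _ => 1 / (Fintype.card G : ℝ)) (fun x hx => by
      rw [if_neg (Finset.ne_of_mem_erase hx), zero_sub, abs_neg, abs_of_pos hu0])]
    rw [Finset.sum_const, Finset.card_erase_of_mem (Finset.mem_univ _), Finset.card_univ,
      nsmul_eq_mul, Nat.cast_sub (by omega), Nat.cast_one]
  rw [h3, if_pos rfl, abs_of_nonneg (by linarith), sub_mul,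
    mul_one_div_cancel (by linarith), one_mul] at h
  linarith

end Pool.Agent.H70.MX
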