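import Pool.Agent.H70.MX.HellA

/-!
# MX-10. From the Dirichlet form to total variation

Notation `F = √f`, `Σ F^2 = 1`, `A m = Σ x, F x * cv (pw p m) F x`.

* `inner_le_one`: for a probability law `μ`: `Σ x, F x * cv μ F x = Σ g, μ g * Σ x, F x * F (g⁻¹ * x) ≤ 1` for `F ≥ 0` with
  `Σ F^2 = 1` (`x y ≤ (x^2 + y^2) / 2`).
* `inner_double`: `A (2 m) ≥ (A m)^2`: `p` symmetric gives `Σ x, F x * cv (pw p (2 m)) F x = Σ x, (cv (pw p m) F x)^2`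
  (`pw_add`, `cv_assoc`, and `Σ x, F x * cv μ H x = Σ x, cv (iv μ) F x * H x`), and Cauchy-Schwarz:
  `(Σ x, F x * cv (pw p m) F x)^2 ≤ (Σ F^2) * Σ (cv (pw p m) F)^2`. `A m ≥ 0`.
* `inner_pow`: `A (2 ^ r) ≥ 1 - 2 ^ r * η` if `A 1 ≥ 1 - η`: induction, `A (2 ^ (r+1)) ≥ (A (2^r))^2`; if `1 - 2^r η ≥ 0`
  then `(1 - 2^r η)^2 ≥ 1 - 2^(r+1) η`; if `1 - 2^r η < 0` then the claim follows from `A ≥ 0`.
* `tv_le`: `β = (Σ x, F x) / √N`: if `β ^ 2 ≥ 1 - ε`, `ε ≤ 1 / 16`, then `Σ x, |f x - 1 / N| ≤ 1 / 2`. Proof: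
  `|F^2 - 1/N| = |F - 1/√N| * |F + 1/√N|`, Cauchy-Schwarz: `(Σ |..|)^2 ≤ (Σ (F - 1/√N)^2) * (Σ (F + 1/√N)^2)
  = (2 - 2 β) * (2 + 2 β) = 4 * (1 - β^2) ≤ 4 ε ≤ 1 / 4`.
* `tv_small`: choose `r` with `2 T ≤ 2 ^ r ≤ 4 T` (`T ≥ 1`; e.g. `r = Nat.clog 2 (2 * T)`). `pw p (2^r) ≥ 1/(2N)` pointwise, so
  `pw p (2^r) = 1/2 * unif + 1/2 * μ` with `μ` a probability law (`μ = 2 * pw p (2^r) - unif`), so
  `A (2^r) ≤ 1/2 * (Σ F)^2 / N + 1/2` (`cv unif F x = (Σ F) / N`). With `η = 2 * 2^a * δ` (`hell_p`, `pw q (s+1) = cv q (pw q s)`):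
  `(Σ F)^2 / N ≥ 2 * (1 - 4 T η) - 1 = 1 - 16 * 2^a * T * δ ≥ 1 - 1/16`.
-/

set_option autoImplicit false
set_option linter.unusedSectionVars false

namespace Pool.Agent.H70.MX

open Finset
open scoped Classical

variable {G : Type} [Group G] [Fintype G]

theorem hellB_swap (μ F H : G → ℝ) :
    ∑ x, F x * cv μ H x = ∑ g, μ g * ∑ x, F x * H (g⁻¹ * x) := by
  unfold cv
  simp only [Finset.mul_sum]
  rw [Finset.sum_comm]
  refine Finset.sum_congr rfl fun g _ => Finset.sum_congr rfl fun x _ => ?_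
  ring

theorem inner_le_one {μ F : G → ℝ} (hμ : IsP μ) (hF2 : ∑ x, F x ^ 2 = 1) :
    ∑ x, F x * cv μ F x ≤ 1 := by
  rw [hellB_swap]
  have h1 : ∀ g : G, ∑ x, F x * F (g⁻¹ * x) ≤ 1 := by
    intro g
    have h2 : ∑ x, F (g⁻¹ * x) ^ 2 = 1 := by
      rw [← hF2]
      exact sum_left (fun x => F x ^ 2) g⁻¹
    calc ∑ x, F x * F (g⁻¹ * x) ≤ ∑ x, (F x ^ 2 + F (g⁻¹ * x) ^ 2) / 2 := by
          refine Finset.sum_le_sum fun x _ => ?_
          nlinarith [sq_nonneg (F x - F (g⁻¹ * x))]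
      _ = 1 := by
          rw [← Finset.sum_div, Finset.sum_add_distrib, hF2, h2]
          norm_num
  calc ∑ g, μ g * ∑ x, F x * F (g⁻¹ * x) ≤ ∑ g, μ g * 1 :=
        Finset.sum_le_sum fun g _ => mul_le_mul_of_nonneg_left (h1 g) (hμ.1 g)
    _ = 1 := by simp [hμ.2]

theorem hellB_adj (μ F H : G → ℝ) :
    ∑ x, F x * cv μ H x = ∑ x, cv (iv μ) F x * H x := by
  rw [hellB_swap]
  have h1 : ∀ x, cv (iv μ) F x = ∑ g, μ g * F (g * x) := by
    intro x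
    unfold cv iv
    rw [← Equiv.sum_comp (Equiv.inv G) (fun y => μ y⁻¹ * F (y⁻¹ * x))]
    refine Finset.sum_congr rfl fun y _ => ?_
    simp
  simp only [h1, Finset.sum_mul]
  rw [Finset.sum_comm]
  refine Finset.sum_congr rfl fun g _ => ?_
  rw [Finset.mul_sum, ← sum_left (fun x => μ g * (F x * H (g⁻¹ * x))) g]
  refine Finset.sum_congr rfl fun x _ => ?_
  simp only [inv_mul_cancel_left]
  ring

theorem inner_double {p F : G → ℝ} (hs : iv p = p) (hF2 : ∑ x, F x ^ 2 = 1) (m : ℕ) :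
    (∑ x, F x * cv (pw p m) F x) ^ 2 ≤ ∑ x, F x * cv (pw p (2 * m)) F x := by
  have h1 : ∑ x, F x * cv (pw p (2 * m)) F x = ∑ x, (cv (pw p m) F x) ^ 2 := by
    rw [two_mul, pw_add, cv_assoc, hellB_adj, iv_pw hs]
    refine Finset.sum_congr rfl fun x _ => ?_
    ring
  rw [h1]
  have h2 := Finset.sum_mul_sq_le_sq_mul_sq Finset.univ F (fun x => cv (pw p m) F x)
  rw [hF2, one_mul] at h2
  exact h2

theorem inner_pow {p F : G → ℝ} (hp : IsP p) (hs : iv p = p) (hF : ∀ x, 0 ≤ F x)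
    (hF2 : ∑ x, F x ^ 2 = 1) (η : ℝ) (h1 : 1 - η ≤ ∑ x, F x * cv p F x) (r : ℕ) :
    1 - 2 ^ r * η ≤ ∑ x, F x * cv (pw p (2 ^ r)) F x := by
  induction r with
  | zero =>
    rw [pow_zero, pow_zero, one_mul, pw_one]
    exact h1
  | succ r ih =>
    have hA0 : 0 ≤ ∑ x, F x * cv (pw p (2 ^ (r + 1))) F x :=
      Finset.sum_nonneg fun x _ => mul_nonneg (hF x) (cv_nonneg (pw_isP hp _).1 hF x)
    have h2 := inner_double (p := p) hs hF2 (2 ^ r)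
    rw [← pow_succ'] at h2
    have e : (2 : ℝ) ^ (r + 1) * η = 2 * (2 ^ r * η) := by ring
    rw [e]
    by_cases hη : 0 ≤ 1 - 2 ^ r * η
    · nlinarith [pow_le_pow_left₀ hη ih 2, sq_nonneg (2 ^ r * η)]
    · push Not at hη
      linarith

theorem hellB_sqrt_sq {f : G → ℝ} (hf : IsP f) : ∑ x, √(f x) ^ 2 = 1 := by
  rw [← hf.2]
  exact Finset.sum_congr rfl fun x _ => Real.sq_sqrt (hf.1 x)

theorem tv_le {f : G → ℝ} (hf : IsP f)
    (h : 15 / 16 ≤ (∑ x, √(f x)) ^ 2 / (Fintype.card G : ℝ)) :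
    ∑ x, |f x - 1 / (Fintype.card G : ℝ)| ≤ 1 / 2 := by
  have hN : (0 : ℝ) < Fintype.card G := by exact_mod_cast Fintype.card_pos
  obtain ⟨c, hc0, hc⟩ : ∃ c : ℝ, 0 ≤ c ∧ c ^ 2 = 1 / (Fintype.card G : ℝ) :=
    ⟨√(1 / (Fintype.card G : ℝ)), Real.sqrt_nonneg _, Real.sq_sqrt (by positivity)⟩
  have hF2 := hellB_sqrt_sq hf
  have hcs : ∑ _x : G, c ^ 2 = 1 := by
    rw [Finset.sum_const, Finset.card_univ, nsmul_eq_mul, hc]
    field_simp
  have e1 : ∀ x, |f x - 1 / (Fintype.card G : ℝ)| = |√(f x) - c| * |√(f x) + c| := by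
    intro x
    rw [← abs_mul, ← hc]
    congr 1
    have := Real.sq_sqrt (hf.1 x)
    nlinarith
  simp only [e1]
  have h2 := Finset.sum_mul_sq_le_sq_mul_sq Finset.univ (fun x => |√(f x) - c|)
    (fun x => |√(f x) + c|)
  simp only [sq_abs] at h2
  have e2 : ∑ x, (√(f x) - c) ^ 2 = 2 - 2 * (c * ∑ x, √(f x)) := by
    have : ∀ x, (√(f x) - c) ^ 2 = √(f x) ^ 2 + c ^ 2 - 2 * (c * √(f x)) := fun x => by ring
    simp only [this]
    rw [Finset.sum_sub_distrib, Finset.sum_add_distrib, hF2, hcs, ← Finset.mul_sum,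
      ← Finset.mul_sum]
    norm_num
  have e3 : ∑ x, (√(f x) + c) ^ 2 = 2 + 2 * (c * ∑ x, √(f x)) := by
    have : ∀ x, (√(f x) + c) ^ 2 = √(f x) ^ 2 + c ^ 2 + 2 * (c * √(f x)) := fun x => by ring
    simp only [this]
    rw [Finset.sum_add_distrib, Finset.sum_add_distrib, hF2, hcs, ← Finset.mul_sum,
      ← Finset.mul_sum]
    norm_num
  rw [e2, e3] at h2
  have e4 : c ^ 2 * (∑ x, √(f x)) ^ 2 = (∑ x, √(f x)) ^ 2 / (Fintype.card G : ℝ) := by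
    rw [hc]
    ring
  have h3 : (∑ x, |√(f x) - c| * |√(f x) + c|) ^ 2 ≤ (1 / 2) ^ 2 := by
    refine h2.trans ?_
    nlinarith [e4, h]
  exact (le_abs_self _).trans (abs_le_of_sq_le_sq h3 (by norm_num))

theorem tv_small {p q : G → ℝ} (hp : IsP p) (hps : iv p = p) (hq : IsP q) (a T s : ℕ)
    (hT : 1 ≤ T) (ha : 1 ≤ a) (hle : ∀ x, p x ≤ 2 ^ a * q x) (hq1 : 1 / 2 ≤ q 1)
    (hmix : ∀ m, 2 * T ≤ m → ∀ x, 1 / (2 * (Fintype.card G : ℝ)) ≤ pw p m x)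
    (hδ : Ent (pw q (s + 1)) - Ent (pw q s) ≤ 1 / (2 ^ (a + 8) * T)) :
    ∑ x, |pw q s x - 1 / (Fintype.card G : ℝ)| ≤ 1 / 2 := by
  have hN : (0 : ℝ) < Fintype.card G := by exact_mod_cast Fintype.card_pos
  have hf := pw_isP hq s
  apply tv_le hf
  have hF2 := hellB_sqrt_sq hf
  set F : G → ℝ := fun x => √(pw q s x) with hFdef
  have hF0 : ∀ x, 0 ≤ F x := fun x => Real.sqrt_nonneg _
  set δ := Ent (pw q (s + 1)) - Ent (pw q s) with hδdef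
  have hδ0 : 0 ≤ δ := by
    rw [hδdef]
    linarith [Ent_pw_mono hq s (s + 1) (Nat.le_succ s)]
  have h1 : 1 - 2 * 2 ^ a * δ ≤ ∑ x, F x * cv p F x := hell_p hp hq hf a ha hle hq1
  obtain ⟨r, hr1, hr2⟩ : ∃ r : ℕ, 2 * T ≤ 2 ^ r ∧ 2 ^ r ≤ 4 * T := by
    refine ⟨Nat.log 2 (4 * T), ?_, Nat.pow_log_le_self 2 (by omega)⟩
    have := Nat.lt_pow_succ_log_self (b := 2) (by norm_num) (4 * T)
    rw [pow_succ] at this
    omega
  have h2 := inner_pow hp hps hF0 hF2 _ h1 r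
  have hw := pw_isP hp (2 ^ r)
  have hwl := hmix (2 ^ r) hr1
  obtain ⟨μ, hμdef⟩ : ∃ μ : G → ℝ, μ = fun x => 2 * pw p (2 ^ r) x - 1 / (Fintype.card G : ℝ) :=
    ⟨_, rfl⟩
  have hμ : IsP μ := by
    rw [hμdef]
    refine ⟨fun x => ?_, ?_⟩
    · have := hwl x
      have e : 1 / (2 * (Fintype.card G : ℝ)) = (1 / (Fintype.card G : ℝ)) / 2 := by
        field_simp
      rw [e] at this
      show 0 ≤ 2 * pw p (2 ^ r) x - 1 / (Fintype.card G : ℝ)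
      linarith
    · rw [Finset.sum_sub_distrib, ← Finset.mul_sum, hw.2, Finset.sum_const, Finset.card_univ,
        nsmul_eq_mul]
      field_simp
      norm_num
  have e1 : pw p (2 ^ r) = fun x => (1 / 2) * unif G x + (1 / 2) * μ x := by
    funext x
    rw [hμdef]
    unfold unif
    ring
  have e2 : ∀ x, cv (unif G) F x = (∑ y, F y) / (Fintype.card G : ℝ) := by
    intro x
    rw [cv_apply']
    unfold unif
    rw [← Finset.mul_sum]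
    ring
  have e3 : ∑ x, F x * cv (pw p (2 ^ r)) F x = (1 / 2) * ((∑ x, F x) ^ 2 / (Fintype.card G : ℝ)) +
      (1 / 2) * ∑ x, F x * cv μ F x := by
    rw [e1, cv_add_left]
    simp only [e2]
    have : ∀ x, F x * ((1 / 2) * ((∑ y, F y) / (Fintype.card G : ℝ)) + (1 / 2) * cv μ F x) =
        (1 / 2) * ((∑ y, F y) / (Fintype.card G : ℝ)) * F x + (1 / 2) * (F x * cv μ F x) :=
      fun x => by ring
    simp only [this]
    rw [Finset.sum_add_distrib, ← Finset.mul_sum, ← Finset.mul_sum]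
    ring
  have h3 := inner_le_one hμ hF2
  have hTR : (0 : ℝ) < T := by exact_mod_cast hT
  have hr2' : (2 : ℝ) ^ r ≤ 4 * T := by exact_mod_cast hr2
  have h4 : (2 : ℝ) ^ r * (2 * 2 ^ a * δ) ≤ 1 / 32 := by
    have hs0 : 0 ≤ 2 * 2 ^ a * δ := by positivity
    calc (2 : ℝ) ^ r * (2 * 2 ^ a * δ) ≤ 4 * T * (2 * 2 ^ a * δ) :=
          mul_le_mul_of_nonneg_right hr2' hs0
      _ = 8 * (2 ^ a * T) * δ := by ring
      _ ≤ 8 * (2 ^ a * T) * (1 / (2 ^ (a + 8) * T)) :=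
          mul_le_mul_of_nonneg_left hδ (by positivity)
      _ = 1 / 32 := by
          rw [pow_add]
          field_simp
          norm_num
  rw [e3] at h2
  have h5 : 15 / 16 ≤ (∑ x, F x) ^ 2 / (Fintype.card G : ℝ) := by linarith
  exact h5

end Pool.Agent.H70.MX
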