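import Pool.Agent.H70.MX.Defs

/-!
# MX-2. Powers

All proofs are short inductions with `cv_assoc`, `dl_one_cv`, `cv_dl_one`, `iv_cv`, `IsP.cv`, `cv_mono`.
`pw_mul_le`: induction on `n`; `c ^ (n+1) * cv f (pw f n) x = Σ y, (c * f y) * (c ^ n * pw f n (y⁻¹ * x))`.
`cv_unif`: `Σ y, f y * (1 / N) = 1 / N`, `cv_unif_left`: `cv unif g x = (1 / N) * Σ y, g (y⁻¹ * x) = 1 / N`
(substitute `y ↦ x * y⁻¹`, see `cv_apply'`).
`Ent_pw_mono`: `pw f (m + n) = cv (pw f m) (pw f n)` and `Ent_le_cv_left`.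
-/

set_option autoImplicit false
set_option linter.unusedSectionVars false

namespace Pool.Agent.H70.MX

open Finset
open scoped Classical

variable {G : Type} [Group G] [Fintype G]

theorem pw_zero (f : G → ℝ) : pw f 0 = dl 1 := rfl

theorem pw_succ (f : G → ℝ) (n : ℕ) : pw f (n + 1) = cv f (pw f n) := rfl

theorem pw_one (f : G → ℝ) : pw f 1 = f := by
  rw [pw_succ, pw_zero, cv_dl_one]

theorem pw_isP {f : G → ℝ} (hf : IsP f) (n : ℕ) : IsP (pw f n) := by
  induction n with
  | zero => exact dl_isP 1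
  | succ n ih => exact hf.cv ih

theorem pw_add (f : G → ℝ) (m n : ℕ) : pw f (m + n) = cv (pw f m) (pw f n) := by
  induction m with
  | zero => rw [zero_add, pw_zero, dl_one_cv]
  | succ m ih => rw [Nat.succ_add, pw_succ, ih, pw_succ, cv_assoc]

theorem pw_mul (f : G → ℝ) (k b : ℕ) : pw f (k * b) = pw (pw f k) b := by
  induction b with
  | zero => rfl
  | succ b ih => rw [Nat.mul_succ, Nat.add_comm, pw_add, ih, pw_succ]

theorem pw_comm (f : G → ℝ) (m n : ℕ) : cv (pw f m) (pw f n) = cv (pw f n) (pw f m) := by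
  rw [← pw_add, ← pw_add, Nat.add_comm]

theorem iv_pw {f : G → ℝ} (hf : iv f = f) (n : ℕ) : iv (pw f n) = pw f n := by
  induction n with
  | zero => rw [pw_zero, iv_dl, inv_one]
  | succ n ih =>
    rw [pw_succ, iv_cv, hf, ih]
    have h := pw_comm f n 1
    rw [pw_one] at h
    exact h

theorem pw_mul_le {f g : G → ℝ} (c : ℝ) (hc : 0 ≤ c) (hf : ∀ x, 0 ≤ f x)
    (hfg : ∀ x, c * f x ≤ g x) (n : ℕ) (x : G) : c ^ n * pw f n x ≤ pw g n x := by
  have hnn : ∀ n, ∀ x, 0 ≤ pw f n x := by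
    intro n
    induction n with
    | zero => exact (dl_isP 1).1
    | succ n ih => exact cv_nonneg hf ih
  induction n generalizing x with
  | zero => simp [pw_zero]
  | succ n ih =>
    rw [pw_succ, pw_succ]
    unfold cv
    rw [Finset.mul_sum]
    refine Finset.sum_le_sum fun y _ => ?_
    have h1 := mul_le_mul (hfg y) (ih (y⁻¹ * x)) (mul_nonneg (pow_nonneg hc n) (hnn n _))
      ((mul_nonneg hc (hf y)).trans (hfg y))
    calc c ^ (n + 1) * (f y * pw f n (y⁻¹ * x))
        = c * f y * (c ^ n * pw f n (y⁻¹ * x)) := by ring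
      _ ≤ _ := h1

theorem card_pos' : (0 : ℝ) < Fintype.card G := by exact_mod_cast Fintype.card_pos

theorem unif_isP : IsP (unif G) := by
  refine ⟨fun x => ?_, ?_⟩
  · unfold unif
    have := card_pos' (G := G)
    positivity
  · have := (card_pos' (G := G)).ne'
    unfold unif
    simp

theorem cv_unif {f : G → ℝ} (hf : IsP f) : cv f (unif G) = unif G := by
  funext x
  unfold cv unif
  rw [← Finset.sum_mul, hf.2, one_mul]

theorem cv_unif_left {f : G → ℝ} (hf : IsP f) : cv (unif G) f = unif G := by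
  funext x
  rw [cv_apply']
  unfold unif
  rw [← Finset.mul_sum, hf.2, mul_one]

theorem Ent_unif : Ent (unif G) = Real.log (Fintype.card G) := by
  have hN := card_pos' (G := G)
  unfold Ent unif
  rw [Finset.sum_const, Finset.card_univ, nsmul_eq_mul]
  unfold Real.negMulLog
  rw [Real.log_div one_ne_zero hN.ne', Real.log_one]
  field_simp
  ring

theorem Ent_pw_mono {f : G → ℝ} (hf : IsP f) (m n : ℕ) (h : m ≤ n) :
    Ent (pw f m) ≤ Ent (pw f n) := by
  obtain ⟨k, rfl⟩ := Nat.exists_eq_add_of_le h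
  rw [pw_add]
  exact Ent_le_cv_left (pw_isP hf m).1 (pw_isP hf k)

theorem dfc_nonneg {f : G → ℝ} (hf : IsP f) : 0 ≤ dfc f := by
  unfold dfc
  have := Ent_le_log hf
  linarith

theorem dfc_le {f : G → ℝ} (hf : IsP f) : dfc f ≤ Real.log (Fintype.card G) := by
  unfold dfc
  have := Ent_nonneg hf.1 hf.2
  linarith

end Pool.Agent.H70.MX
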