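import Pool.Agent.H70.MX.Psi
import Pool.Agent.H70.MX.Pow

/-!
# MX-7. The block lemma

Setting: `p ≤ 2 ^ a * q` pointwise, `q` symmetric, `ρ = pw q t`, `k * 2 ^ (a * k) ≤ 2 * t`. Claim:
`psi ρ (pw p k) ≤ 4 * (Ent (pw q (4 * t)) - Ent ρ)`.

Notation `Q = pw q k`, `P = pw p k`, `e = (1 / 2) ^ (a * k)` (so `0 < e ≤ 1 / 2`), `D = Ent (pw q (4 t)) - Ent (pw q t)`.
`e * P ≤ Q` pointwise (`pw_mul_le` with `c = (1 / 2) ^ a`), so `κ = (Q - e * P) / (1 - e)` is a probability law and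
`Q = e * P + (1 - e) * κ`. For `j, n` put `X j n = psi ρ (cv (pw κ j) (pw Q n))`.

(1) `psi ρ (pw Q n) ≤ D` if `k * n ≤ 2 * t`: `pw Q n = pw q (k * n)` (`pw_mul`), `ρ * pw q (k n) * ρ = pw q (2 t + k n)`
    (`pw_add`), `2 t + k n ≤ 4 t` (`Ent_pw_mono`).
(2) `(1 - e) ^ j * psi ρ (pw κ j) ≤ D` if `k * j ≤ 2 * t`: `(1 - e) ^ j * pw κ j ≤ pw Q j` pointwise (`pw_mul_le`, as
    `(1 - e) * κ ≤ Q`), `psi_le_of_ge` and (1).
(3) `psi ρ (cv (cv (pw κ j) P) (pw Q n)) ≥ psi ρ (cv (pw κ j) P)`: `pw Q n = pw q (k n)` commutes with `ρ = pw q t`, so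
    `ρ * (κ^j P Q^n) * ρ = (ρ * κ^j * P * ρ) * Q^n` and `Ent_le_cv_left`; and
    `psi ρ (cv (pw κ j) P) ≥ psi ρ P - psi ρ (pw κ j)` (`psi_sub_le`).
(4) `pw Q (n + 1) = cv Q (pw Q n)`, so by linearity `cv (pw κ j) (pw Q (n + 1)) =
    e * cv (cv (pw κ j) P) (pw Q n) + (1 - e) * cv (pw κ (j + 1)) (pw Q n)`
    (`cv (pw κ j) κ = pw κ (j + 1)`, by `pw_add` with `pw_one`), and `psi_add_le` gives
    `X j (n + 1) ≥ e * (psi ρ P - psi ρ (pw κ j)) + (1 - e) * X (j + 1) n`.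
(5) Induction on `n`, for all `j` with `k * (j + n) ≤ 2 * t` (only `(2)` for indices `< j + n` is used):
    `(1 - e) ^ j * X j n ≥ ((1 - e) ^ j - (1 - e) ^ (j + n)) * psi ρ P - n * e * D`.
    `n = 0`: the right side is `0` (`psi_nonneg`). Step: multiply (4) by `(1 - e) ^ j`, use (2) for the middle term
    (`e * (1 - e) ^ j * psi ρ (pw κ j) ≤ e * D`) and the induction hypothesis for `j + 1`
    (`e * (1 - e) ^ j = (1 - e) ^ j - (1 - e) ^ (j + 1)`).
(6) Take `j = 0`, `n = 2 ^ (a * k)`, so `n * e = 1`; `X 0 n = psi ρ (pw Q n) ≤ D` by (1) (`dl_one_cv`), and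
    `(1 - e) ^ n ≤ exp (- e * n) = exp (-1) ≤ 1 / 2` (`Real.add_one_le_exp`; `exp 1 ≥ 2`). So
    `D ≥ (1 / 2) * psi ρ P - D`, i.e. `psi ρ P ≤ 4 * D`.
-/

set_option autoImplicit false
set_option linter.unusedSectionVars false

namespace Pool.Agent.H70.MX

open Finset
open scoped Classical

variable {G : Type} [Group G] [Fintype G]

private theorem block_one {q : G → ℝ} (hq : IsP q) (k t n : ℕ) (h : k * n ≤ 2 * t) :
    psi (pw q t) (pw (pw q k) n) ≤ Ent (pw q (4 * t)) - Ent (pw q t) := by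
  unfold psi
  rw [← pw_mul, ← pw_add, ← pw_add]
  have := Ent_pw_mono hq (t + k * n + t) (4 * t) (by omega)
  linarith

private theorem block_three {q M : G → ℝ} (hq : IsP q) (hM : IsP M) (k t n : ℕ) :
    psi (pw q t) M ≤ psi (pw q t) (cv M (pw (pw q k) n)) := by
  unfold psi
  rw [← pw_mul]
  have h1 : cv (cv (pw q t) (cv M (pw q (k * n)))) (pw q t) =
      cv (cv (cv (pw q t) M) (pw q t)) (pw q (k * n)) := by
    rw [cv_assoc, cv_assoc, pw_comm q (k * n) t, cv_assoc, cv_assoc]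
  rw [h1]
  have h2 : IsP (cv (cv (pw q t) M) (pw q t)) :=
    IsP.cv (IsP.cv (pw_isP hq t) hM) (pw_isP hq t)
  have h3 := Ent_le_cv_left (f := cv (cv (pw q t) M) (pw q t)) (g := pw q (k * n)) h2.1
    (pw_isP hq _)
  linarith

theorem block {p q : G → ℝ} (hp : IsP p) (hq : IsP q) (hs : iv q = q) (a : ℕ) (ha : 1 ≤ a)
    (hle : ∀ x, p x ≤ 2 ^ a * q x) (k t : ℕ) (hk : 1 ≤ k) (hkt : k * 2 ^ (a * k) ≤ 2 * t) :
    psi (pw q t) (pw p k) ≤ 4 * (Ent (pw q (4 * t)) - Ent (pw q t)) := by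
  set D := Ent (pw q (4 * t)) - Ent (pw q t) with hD
  set ρ := pw q t with hρdef
  set Q := pw q k with hQdef
  set P := pw p k with hPdef
  have hρ : IsP ρ := pw_isP hq t
  have hρs : iv ρ = ρ := iv_pw hs t
  have hQ : IsP Q := pw_isP hq k
  have hP : IsP P := pw_isP hp k
  set e : ℝ := (1 / 2) ^ (a * k) with he
  have he0 : 0 < e := by positivity
  have hak : 1 ≤ a * k := Nat.one_le_iff_ne_zero.2 (by positivity)
  have he2 : e ≤ 1 / 2 := by
    calc e ≤ (1 / 2 : ℝ) ^ 1 := pow_le_pow_of_le_one (by norm_num) (by norm_num) hak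
      _ = 1 / 2 := by norm_num
  have h1e : 0 < 1 - e := by linarith
  have heP : ∀ x, e * P x ≤ Q x := by
    intro x
    have h := pw_mul_le (f := p) (g := q) ((1 / 2 : ℝ) ^ a) (by positivity) hp.1 (fun y => by
      have h2 := hle y
      have h3 : (0 : ℝ) < (1 / 2) ^ a := by positivity
      have h4 : (1 / 2 : ℝ) ^ a * 2 ^ a = 1 := by
        rw [← mul_pow]
        norm_num
      calc (1 / 2 : ℝ) ^ a * p y ≤ (1 / 2 : ℝ) ^ a * (2 ^ a * q y) :=
            mul_le_mul_of_nonneg_left h2 h3.le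
        _ = q y := by rw [← mul_assoc, h4, one_mul]) k x
    rw [← pow_mul] at h
    exact h
  set κ : G → ℝ := fun x => (Q x - e * P x) / (1 - e) with hκdef
  have hκ : IsP κ := by
    refine ⟨fun x => div_nonneg (by linarith [heP x]) h1e.le, ?_⟩
    rw [hκdef]
    simp only
    rw [← Finset.sum_div, Finset.sum_sub_distrib, ← Finset.mul_sum, hQ.2, hP.2]
    field_simp
  have hQe : Q = fun x => e * P x + (1 - e) * κ x := by
    funext x
    rw [hκdef]
    simp only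
    field_simp
    ring
  have hκQ : ∀ x, (1 - e) * κ x ≤ Q x := by
    intro x
    have h1 : Q x = e * P x + (1 - e) * κ x := congrFun hQe x
    have h2 : 0 ≤ e * P x := mul_nonneg he0.le (hP.1 x)
    linarith
  have hψP : 0 ≤ psi ρ P := psi_nonneg hρ hP
  -- (2)
  have c2 : ∀ j, k * j ≤ 2 * t → (1 - e) ^ j * psi ρ (pw κ j) ≤ D := by
    intro j hj
    refine (psi_le_of_ge hρ (pw_isP hQ j) (pw_isP hκ j) ((1 - e) ^ j) (by positivity) ?_).trans
      (block_one hq k t j hj)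
    intro x
    exact pw_mul_le (f := κ) (g := Q) (1 - e) h1e.le hκ.1 hκQ j x
  -- (4)
  have c4 : ∀ j n, e * (psi ρ P - psi ρ (pw κ j)) + (1 - e) * psi ρ (cv (pw κ (j + 1)) (pw Q n)) ≤
      psi ρ (cv (pw κ j) (pw Q (n + 1))) := by
    intro j n
    have h1 : cv (pw κ j) (pw Q (n + 1)) = fun x =>
        e * cv (cv (pw κ j) P) (pw Q n) x + (1 - e) * cv (pw κ (j + 1)) (pw Q n) x := by
      rw [pw_succ, ← cv_assoc]
      have h2 : cv (pw κ j) Q = fun x => e * cv (pw κ j) P x + (1 - e) * pw κ (j + 1) x := by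
        conv_lhs => rw [hQe]
        rw [cv_add_right]
        rw [pw_add, pw_one]
      rw [h2, cv_add_left]
    rw [h1]
    have h3 := psi_add_le e (1 - e) he0.le h1e.le (by ring) hρ
      (IsP.cv (IsP.cv (pw_isP hκ j) hP) (pw_isP hQ n)) (IsP.cv (pw_isP hκ (j + 1)) (pw_isP hQ n))
    have h4 := psi_sub_le hρ hρs (pw_isP hκ j) hP
    have h5 := block_three (M := cv (pw κ j) P) hq (IsP.cv (pw_isP hκ j) hP) k t n
    have h6 : e * (psi ρ P - psi ρ (pw κ j)) ≤ e * psi ρ (cv (cv (pw κ j) P) (pw Q n)) :=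
      mul_le_mul_of_nonneg_left (h4.trans h5) he0.le
    linarith
  -- (5)
  have c5 : ∀ n j, k * (j + n) ≤ 2 * t →
      ((1 - e) ^ j - (1 - e) ^ (j + n)) * psi ρ P - n * e * D ≤
        (1 - e) ^ j * psi ρ (cv (pw κ j) (pw Q n)) := by
    intro n
    induction n with
    | zero =>
      intro j _
      have h := psi_nonneg hρ (IsP.cv (pw_isP hκ j) (pw_isP hQ 0))
      have h2 : 0 ≤ (1 - e) ^ j * psi ρ (cv (pw κ j) (pw Q 0)) := mul_nonneg (by positivity) h
      simpa using h2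
    | succ n ih =>
      intro j hj
      have h1 := ih (j + 1) (by
        have : j + 1 + n = j + (n + 1) := by ring
        rw [this]
        exact hj)
      have h2 := c2 j (le_trans (Nat.mul_le_mul_left _ (by omega)) hj)
      have h3 := mul_le_mul_of_nonneg_left (c4 j n) (by positivity : (0 : ℝ) ≤ (1 - e) ^ j)
      have h4 : (1 - e) ^ (j + 1 + n) = (1 - e) ^ (j + (n + 1)) := by
        congr 1
        ring
      rw [h4] at h1
      have h5 : (1 - e) ^ (j + 1) = (1 - e) ^ j * (1 - e) := pow_succ _ _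
      rw [h5] at h1
      have h6 := mul_le_mul_of_nonneg_left h2 he0.le
      push_cast
      nlinarith
  have c6 := c5 (2 ^ (a * k)) 0 (by rw [zero_add]; exact hkt)
  have hn : ((2 ^ (a * k) : ℕ) : ℝ) * e = 1 := by
    rw [he]
    push_cast
    rw [← mul_pow]
    norm_num
  rw [hn, pow_zero, zero_add, one_mul, one_mul] at c6
  have h7 : cv (pw κ 0) (pw Q (2 ^ (a * k))) = pw Q (2 ^ (a * k)) := by
    rw [pw_zero, dl_one_cv]
  rw [h7] at c6
  have h8 := block_one hq k t (2 ^ (a * k)) hkt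
  have h9 : (1 - e) ^ (2 ^ (a * k)) ≤ 1 / 2 := by
    have h10 : 1 - e ≤ Real.exp (-e) := by
      have := Real.add_one_le_exp (-e)
      linarith
    calc (1 - e) ^ (2 ^ (a * k)) ≤ Real.exp (-e) ^ (2 ^ (a * k)) :=
          pow_le_pow_left₀ h1e.le h10 _
      _ = Real.exp (-1) := by
          rw [← Real.exp_nat_mul, mul_neg, hn]
      _ ≤ 1 / 2 := by
          rw [Real.exp_neg, ← one_div]
          apply one_div_le_one_div_of_le (by norm_num)
          have := Real.add_one_le_exp (1 : ℝ)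
          linarith
  have h11 : (1 / 2) * psi ρ P ≤ (1 - (1 - e) ^ (2 ^ (a * k))) * psi ρ P :=
    mul_le_mul_of_nonneg_right (by linarith) hψP
  have h12 : psi ρ (pw Q (2 ^ (a * k))) ≤ D := h8
  linarith

end Pool.Agent.H70.MX
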