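import Mathlib

/-!
# Convolution and entropy of probability laws on a finite group
-/

set_option autoImplicit false
set_option linter.unusedSectionVars false

namespace Pool.Agent.H70.MX

open Finset
open scoped Classical

variable {G : Type} [Group G] [Fintype G]

/-- `f` is a probability law on `G` -/
def IsP (f : G → ℝ) : Prop := (∀ x, 0 ≤ f x) ∧ ∑ x, f x = 1

/-- convolution: the law of `A * B` for independent `A ~ f`, `B ~ g` -/
noncomputable def cv (f g : G → ℝ) : G → ℝ := fun x => ∑ y, f y * g (y⁻¹ * x)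

/-- Shannon entropy -/
noncomputable def Ent {X : Type} [Fintype X] (f : X → ℝ) : ℝ := ∑ x, Real.negMulLog (f x)

/-- the law of the inverse -/
def iv (f : G → ℝ) : G → ℝ := fun x => f x⁻¹

/-- the point mass -/
noncomputable def dl (z : G) : G → ℝ := fun x => if x = z then 1 else 0

theorem dl_isP (z : G) : IsP (dl z) := by
  refine ⟨fun x => ?_, ?_⟩
  · unfold dl
    split_ifs <;> norm_num
  · unfold dl
    simp

theorem iv_isP {f : G → ℝ} (hf : IsP f) : IsP (iv f) := by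
  refine ⟨fun x => hf.1 _, ?_⟩
  unfold iv
  rw [← hf.2]
  exact Equiv.sum_comp (Equiv.inv G) f

theorem iv_iv (f : G → ℝ) : iv (iv f) = f := by
  funext x
  unfold iv
  rw [inv_inv]

theorem iv_dl (z : G) : iv (dl z) = dl z⁻¹ := by
  funext x
  unfold iv dl
  by_cases h : x⁻¹ = z
  · rw [if_pos h, if_pos (by rw [← h, inv_inv])]
  · rw [if_neg h, if_neg (fun h' => h (by rw [h', inv_inv]))]

/-- the other form of the convolution -/
theorem cv_apply' (f g : G → ℝ) (x : G) : cv f g x = ∑ y, f (x * y⁻¹) * g y := by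
  unfold cv
  rw [← Equiv.sum_comp ((Equiv.inv G).trans (Equiv.mulLeft x)) (fun y => f y * g (y⁻¹ * x))]
  refine Finset.sum_congr rfl fun y _ => ?_
  simp

theorem sum_left (f : G → ℝ) (y : G) : ∑ x, f (y * x) = ∑ x, f x :=
  Equiv.sum_comp (Equiv.mulLeft y) f

theorem sum_right (f : G → ℝ) (y : G) : ∑ x, f (x * y) = ∑ x, f x :=
  Equiv.sum_comp (Equiv.mulRight y) f

theorem cv_nonneg {f g : G → ℝ} (hf : ∀ x, 0 ≤ f x) (hg : ∀ x, 0 ≤ g x) (x : G) : 0 ≤ cv f g x :=
  Finset.sum_nonneg fun _ _ => mul_nonneg (hf _) (hg _)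

theorem sum_cv (f g : G → ℝ) : ∑ x, cv f g x = (∑ x, f x) * ∑ x, g x := by
  unfold cv
  rw [Finset.sum_comm, Finset.sum_mul]
  refine Finset.sum_congr rfl fun y _ => ?_
  rw [← Finset.mul_sum, sum_left]

theorem IsP.cv {f g : G → ℝ} (hf : IsP f) (hg : IsP g) : IsP (cv f g) := by
  refine ⟨cv_nonneg hf.1 hg.1, ?_⟩
  rw [sum_cv, hf.2, hg.2, mul_one]

theorem cv_assoc (f g h : G → ℝ) : cv (cv f g) h = cv f (cv g h) := by
  funext x
  unfold cv
  simp only [Finset.sum_mul, Finset.mul_sum]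
  rw [Finset.sum_comm]
  refine Finset.sum_congr rfl fun y _ => ?_
  rw [← Equiv.sum_comp (Equiv.mulLeft y)
    (fun z => f y * g (y⁻¹ * z) * h (z⁻¹ * x))]
  refine Finset.sum_congr rfl fun z _ => ?_
  simp [mul_assoc]

theorem iv_cv (f g : G → ℝ) : iv (cv f g) = cv (iv g) (iv f) := by
  funext x
  rw [cv_apply']
  unfold iv cv
  rw [← Equiv.sum_comp (Equiv.inv G) (fun y => f y * g (y⁻¹ * x⁻¹))]
  refine Finset.sum_congr rfl fun y _ => ?_
  simp [mul_comm]

theorem dl_cv (z : G) (g : G → ℝ) (x : G) : cv (dl z) g x = g (z⁻¹ * x) := by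
  unfold cv dl
  simp

theorem cv_dl (z : G) (f : G → ℝ) (x : G) : cv f (dl z) x = f (x * z⁻¹) := by
  rw [cv_apply']
  unfold dl
  simp

theorem dl_one_cv (g : G → ℝ) : cv (dl 1) g = g := by
  funext x
  rw [dl_cv]
  simp

theorem cv_dl_one (f : G → ℝ) : cv f (dl 1) = f := by
  funext x
  rw [cv_dl]
  simp

theorem dl_cv_dl (y z : G) : cv (dl y) (dl z) = dl (y * z) := by
  funext x
  rw [dl_cv]
  unfold dl
  by_cases h : y⁻¹ * x = z
  · rw [if_pos h, if_pos (by rw [← h]; group)]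
  · rw [if_neg h, if_neg (fun h' => h (by rw [h']; group))]

theorem cv_eq_sum (f g : G → ℝ) : cv f g = fun x => ∑ y, f y * cv (dl y) g x := by
  funext x
  unfold cv
  refine Finset.sum_congr rfl fun y _ => ?_
  have := dl_cv y g x
  unfold cv at this
  rw [this]

theorem cv_eq_sum' (f g : G → ℝ) : cv f g = fun x => ∑ y, g y * cv f (dl y) x := by
  funext x
  rw [cv_apply']
  refine Finset.sum_congr rfl fun y _ => ?_
  rw [cv_dl, mul_comm]

/-- bilinearity -/
theorem cv_sum_left {ι : Type} (s : Finset ι) (w : ι → ℝ) (f : ι → G → ℝ) (g : G → ℝ) :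
    cv (fun x => ∑ i ∈ s, w i * f i x) g = fun x => ∑ i ∈ s, w i * cv (f i) g x := by
  funext x
  unfold cv
  simp only [Finset.sum_mul, Finset.mul_sum]
  rw [Finset.sum_comm]
  refine Finset.sum_congr rfl fun i _ => Finset.sum_congr rfl fun y _ => ?_
  ring

theorem cv_sum_right {ι : Type} (s : Finset ι) (w : ι → ℝ) (f : G → ℝ) (g : ι → G → ℝ) :
    cv f (fun x => ∑ i ∈ s, w i * g i x) = fun x => ∑ i ∈ s, w i * cv f (g i) x := by
  funext x
  unfold cv
  simp only [Finset.mul_sum]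
  rw [Finset.sum_comm]
  refine Finset.sum_congr rfl fun i _ => Finset.sum_congr rfl fun y _ => ?_
  ring

theorem cv_add_left (f₁ f₂ g : G → ℝ) (a b : ℝ) :
    cv (fun x => a * f₁ x + b * f₂ x) g = fun x => a * cv f₁ g x + b * cv f₂ g x := by
  funext x
  unfold cv
  rw [Finset.mul_sum, Finset.mul_sum, ← Finset.sum_add_distrib]
  refine Finset.sum_congr rfl fun y _ => ?_
  ring

theorem cv_add_right (f g₁ g₂ : G → ℝ) (a b : ℝ) :
    cv f (fun x => a * g₁ x + b * g₂ x) = fun x => a * cv f g₁ x + b * cv f g₂ x := by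
  funext x
  unfold cv
  rw [Finset.mul_sum, Finset.mul_sum, ← Finset.sum_add_distrib]
  refine Finset.sum_congr rfl fun y _ => ?_
  ring

theorem cv_mono {f f' g g' : G → ℝ} (hf : ∀ x, f x ≤ f' x) (hg : ∀ x, g x ≤ g' x)
    (hg0 : ∀ x, 0 ≤ g x) (hf0 : ∀ x, 0 ≤ f' x) (x : G) : cv f g x ≤ cv f' g' x := by
  unfold cv
  exact Finset.sum_le_sum fun y _ => mul_le_mul (hf _) (hg _) (hg0 _) (hf0 _)

/-! ### entropy -/

theorem Ent_dl_cv (z : G) (g : G → ℝ) : Ent (cv (dl z) g) = Ent g := by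
  unfold Ent
  simp only [dl_cv]
  exact sum_left (fun x => Real.negMulLog (g x)) z⁻¹

theorem Ent_cv_dl (z : G) (f : G → ℝ) : Ent (cv f (dl z)) = Ent f := by
  unfold Ent
  simp only [cv_dl]
  exact sum_right (fun x => Real.negMulLog (f x)) z⁻¹

theorem Ent_iv (f : G → ℝ) : Ent (iv f) = Ent f := by
  unfold Ent iv
  exact Equiv.sum_comp (Equiv.inv G) (fun x => Real.negMulLog (f x))

/-- concavity of the entropy -/
theorem Ent_concave {X ι : Type} [Fintype X] (s : Finset ι) (w : ι → ℝ) (f : ι → X → ℝ)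
    (hw : ∀ i ∈ s, 0 ≤ w i) (hw1 : ∑ i ∈ s, w i = 1) (hf : ∀ i ∈ s, ∀ x, 0 ≤ f i x) :
    ∑ i ∈ s, w i * Ent (f i) ≤ Ent (fun x => ∑ i ∈ s, w i * f i x) := by
  unfold Ent
  simp only [Finset.mul_sum]
  rw [Finset.sum_comm]
  refine Finset.sum_le_sum fun x _ => ?_
  have h := Real.concaveOn_negMulLog.le_map_sum (t := s) (w := w) (p := fun i => f i x) hw hw1
    (fun i hi => Set.mem_Ici.2 (hf i hi x))
  simpa [smul_eq_mul] using h

theorem Ent_concave₂ {X : Type} [Fintype X] (a b : ℝ) (f g : X → ℝ) (ha : 0 ≤ a) (hb : 0 ≤ b)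
    (hab : a + b = 1) (hf : ∀ x, 0 ≤ f x) (hg : ∀ x, 0 ≤ g x) :
    a * Ent f + b * Ent g ≤ Ent (fun x => a * f x + b * g x) := by
  unfold Ent
  simp only [Finset.mul_sum]
  rw [← Finset.sum_add_distrib]
  refine Finset.sum_le_sum fun x _ => ?_
  have h := Real.concaveOn_negMulLog.2 (Set.mem_Ici.2 (hf x)) (Set.mem_Ici.2 (hg x)) ha hb hab
  simpa [smul_eq_mul] using h

theorem Ent_le_cv_right {f g : G → ℝ} (hf : IsP f) (hg : ∀ x, 0 ≤ g x) : Ent g ≤ Ent (cv f g) := by
  rw [cv_eq_sum f g]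
  refine le_trans (le_of_eq ?_) (Ent_concave Finset.univ f (fun y => cv (dl y) g)
    (fun y _ => hf.1 y) hf.2 (fun y _ x => cv_nonneg (dl_isP y).1 hg x))
  simp only [Ent_dl_cv]
  rw [← Finset.sum_mul, hf.2, one_mul]

theorem Ent_le_cv_left {f g : G → ℝ} (hf : ∀ x, 0 ≤ f x) (hg : IsP g) : Ent f ≤ Ent (cv f g) := by
  rw [cv_eq_sum' f g]
  refine le_trans (le_of_eq ?_) (Ent_concave Finset.univ g (fun y => cv f (dl y))
    (fun y _ => hg.1 y) hg.2 (fun y _ x => cv_nonneg hf (dl_isP y).1 x))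
  simp only [Ent_cv_dl]
  rw [← Finset.sum_mul, hg.2, one_mul]

theorem Ent_nonneg {X : Type} [Fintype X] {f : X → ℝ} (h0 : ∀ x, 0 ≤ f x) (h1 : ∑ x, f x = 1) :
    0 ≤ Ent f := by
  unfold Ent
  refine Finset.sum_nonneg fun x _ => Real.negMulLog_nonneg (h0 x) ?_
  rw [← h1]
  exact Finset.single_le_sum (fun y _ => h0 y) (Finset.mem_univ x)

/-- Gibbs' inequality -/
theorem gibbs {X : Type} [Fintype X] {f g : X → ℝ} (hf : ∀ x, 0 ≤ f x) (hg : ∀ x, 0 ≤ g x)
    (hfg : ∀ x, g x = 0 → f x = 0) (h : ∑ x, g x ≤ ∑ x, f x) :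
    Ent f ≤ -∑ x, f x * Real.log (g x) := by
  unfold Ent
  rw [← Finset.sum_neg_distrib]
  have h1 : ∀ x, Real.negMulLog (f x) ≤ -(f x * Real.log (g x)) + (g x - f x) := by
    intro x
    unfold Real.negMulLog
    rcases (hf x).lt_or_eq with hx | hx
    · have hgx : 0 < g x := lt_of_le_of_ne (hg x) (fun h' => hx.ne' (hfg x h'.symm))
      have h2 := Real.log_le_sub_one_of_pos (div_pos hgx hx)
      rw [Real.log_div hgx.ne' hx.ne'] at h2
      have h3 := mul_le_mul_of_nonneg_left h2 hx.le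
      have h4 : f x * (g x / f x - 1) = g x - f x := by
        field_simp
      rw [h4] at h3
      linarith
    · rw [← hx]
      have := hg x
      simp
      exact this
  have h2 := Finset.sum_le_sum fun x (_ : x ∈ (Finset.univ : Finset X)) => h1 x
  rw [Finset.sum_add_distrib, Finset.sum_sub_distrib] at h2
  linarith

theorem Ent_le_log {f : G → ℝ} (hf : IsP f) : Ent f ≤ Real.log (Fintype.card G) := by
  have hN : (0 : ℝ) < Fintype.card G := by exact_mod_cast Fintype.card_pos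
  have h := gibbs (f := f) (g := fun _ => 1 / (Fintype.card G : ℝ)) hf.1 (fun _ => by positivity)
    (fun x hx => absurd hx (by positivity)) (by
      rw [hf.2]
      simp)
  refine h.trans (le_of_eq ?_)
  rw [← Finset.sum_mul, hf.2, one_mul, Real.log_div one_ne_zero hN.ne', Real.log_one]
  ring

end Pool.Agent.H70.MX
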