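import Pool.Agent.H70.MX.Pow

/-!
# MX-5. Mixing in total variation gives a pointwise lower bound at twice the time

`half_unif`. Put `N = |G|`, `r y = min (f y) (1 / N)`. `Σ y, r y ≥ 3 / 4`, because
`r y = (f y + 1 / N - |f y - 1 / N|) / 2`, the sums of `f` and of `1 / N` are `1` and `Σ |f - 1 / N| ≤ 1 / 2`.
`cv f f x = Σ y, f y * f (y⁻¹ * x)` and `f (y⁻¹ * x) = f (x⁻¹ * y)` (symmetry). For all `y`:
`f y * f (x⁻¹ * y) ≥ r y * r (x⁻¹ * y) ≥ (r y + r (x⁻¹ * y) - 1 / N) / N`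
(`0 ≤ r ≤ 1 / N`, so `(1 / N - r) * (1 / N - r') ≥ 0`). Summing over `y` (`sum_left`):
`cv f f x ≥ (3 / 4 + 3 / 4 - 1) / N = 1 / (2 N)`.

`pw_half`: `pw f (2 * T) = cv (pw f T) (pw f T)` (`pw_add`, `iv_pw`), so `pw f (2 T) ≥ 1 / (2 N)` pointwise, and
`pw f m x = cv (pw f (2 T)) (pw f (m - 2 T)) x = Σ y, pw f (2 T) (x * y⁻¹) * pw f (m - 2 T) y ≥ 1 / (2 N)`
(`cv_apply'`, total mass `1`).
-/

set_option autoImplicit false
set_option linter.unusedSectionVars false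

namespace Pool.Agent.H70.MX

open Finset
open scoped Classical

variable {G : Type} [Group G] [Fintype G]

theorem half_unif {f : G → ℝ} (hf : IsP f) (hs : iv f = f)
    (h : ∑ x, |f x - 1 / (Fintype.card G : ℝ)| ≤ 1 / 2) (x : G) :
    1 / (2 * (Fintype.card G : ℝ)) ≤ cv f f x := by
  have hN : (0 : ℝ) < Fintype.card G := card_pos'
  obtain ⟨u, hu⟩ : ∃ u : ℝ, u = 1 / (Fintype.card G : ℝ) := ⟨_, rfl⟩
  have hu0 : 0 < u := by rw [hu]; positivity
  have hsu : ∑ _y : G, u = 1 := by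
    rw [Finset.sum_const, Finset.card_univ, nsmul_eq_mul, hu]
    field_simp
  rw [← hu] at h
  obtain ⟨r, hr⟩ : ∃ r : G → ℝ, r = fun y => min (f y) u := ⟨_, rfl⟩
  have hr1 : ∀ y, r y ≤ f y := fun y => by rw [hr]; exact min_le_left _ _
  have hr2 : ∀ y, r y ≤ u := fun y => by rw [hr]; exact min_le_right _ _
  have hr0 : ∀ y, 0 ≤ r y := fun y => by rw [hr]; exact le_min (hf.1 y) hu0.le
  have hr3 : ∀ y, (f y + u - |f y - u|) / 2 ≤ r y := by
    intro y
    rw [hr]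
    refine le_min ?_ ?_
    · have := neg_abs_le (f y - u)
      linarith
    · have := le_abs_self (f y - u)
      linarith
  have hsr : 3 / 4 ≤ ∑ y, r y := by
    have h1 := Finset.sum_le_sum fun y (_ : y ∈ (Finset.univ : Finset G)) => hr3 y
    rw [← Finset.sum_div, Finset.sum_sub_distrib, Finset.sum_add_distrib, hf.2, hsu] at h1
    linarith
  have hpt : ∀ y, u * (r y + r (x⁻¹ * y) - u) ≤ f y * f (y⁻¹ * x) := by
    intro y
    have h1 : f (y⁻¹ * x) = f (x⁻¹ * y) := by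
      have h2 := congrFun hs (x⁻¹ * y)
      unfold iv at h2
      rw [← h2]
      congr 1
      group
    rw [h1]
    have h2 := mul_le_mul (hr1 y) (hr1 (x⁻¹ * y)) (hr0 _) (hf.1 y)
    have h3 := mul_nonneg (sub_nonneg.2 (hr2 y)) (sub_nonneg.2 (hr2 (x⁻¹ * y)))
    nlinarith [h2, h3]
  have hsum := Finset.sum_le_sum fun y (_ : y ∈ (Finset.univ : Finset G)) => hpt y
  rw [← Finset.mul_sum, Finset.sum_sub_distrib, Finset.sum_add_distrib, hsu,
    sum_left r x⁻¹] at hsum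
  have h5 : 1 / (2 * (Fintype.card G : ℝ)) = u * (1 / 2) := by
    rw [hu]
    field_simp
  rw [h5]
  refine le_trans ?_ hsum
  exact mul_le_mul_of_nonneg_left (by linarith) hu0.le

theorem pw_half {f : G → ℝ} (hf : IsP f) (hs : iv f = f) (T : ℕ)
    (h : ∑ x, |pw f T x - 1 / (Fintype.card G : ℝ)| ≤ 1 / 2) (m : ℕ) (hm : 2 * T ≤ m) (x : G) :
    1 / (2 * (Fintype.card G : ℝ)) ≤ pw f m x := by
  obtain ⟨k, rfl⟩ := Nat.exists_eq_add_of_le hm
  have h1 : ∀ z, 1 / (2 * (Fintype.card G : ℝ)) ≤ pw f (2 * T) z := by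
    intro z
    rw [two_mul T, pw_add]
    exact half_unif (pw_isP hf T) (iv_pw hs T) h z
  rw [pw_add, cv_apply']
  have hk := pw_isP hf k
  calc 1 / (2 * (Fintype.card G : ℝ)) = ∑ y, 1 / (2 * (Fintype.card G : ℝ)) * pw f k y := by
        rw [← Finset.mul_sum, hk.2, mul_one]
    _ ≤ ∑ y, pw f (2 * T) (x * y⁻¹) * pw f k y :=
        Finset.sum_le_sum fun y _ => mul_le_mul_of_nonneg_right (h1 _) (hk.1 y)

end Pool.Agent.H70.MX
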