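import Mathlib

/-!
# MX-12. The numerical endgame

`num`. Put `L = log K > 0`, `B = 2 (a + 1) log 2 ≥ 4 log 2 > 2`, `n = ⌊L / B⌋₊`, `c = 3 / (512 B^2)`,
`A = 1 + 2 ^ (a + 8) * exp (4 B c)`. Then `2 ^ ((a + 1) n) = exp (n (a + 1) log 2) ≤ exp (L / 2) = K * exp (- L / 2)`, and
`c * L * min 1 (L / T) ≤ L / 2`, so the first term is at most `T K exp (- c L min(1, L/T))`.
Second term: claim `exp (- n min(n - 1, 2T) / (64 T)) ≤ exp (4 B c) * exp (- c L min(1, L / T))`.
If `L < 4 B`: the exponent on the left is `≤ 0` (for `n = 0` the product is `0`; for `n ≥ 1` both factors are `≥ 0`), and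
`c L min(1, L/T) ≤ c L ≤ 4 B c`. If `L ≥ 4 B`: `n ≥ L / B - 1 ≥ (3/4) L / B`, `n - 1 ≥ L / B - 2 ≥ L / (2 B)`, so
`n min(n - 1, 2 T) / (64 T) ≥ (3 L / (4 B)) * min(L / (2 B), 2 T) / (64 T) ≥ (3 L / (256 B)) * min (L / (2 B T)) 2
≥ (3 L / (256 B)) * (1 / (2 B)) * min(1, L / T) = c L min(1, L / T)` (as `1 / (2B) ≤ 2`).

`num2`. From `κ T K ≤ X ≤ A T K exp (- c L min(1, L/T))`: `c L min(1, L/T) ≤ log (A / κ)`. Put `R = max (log (A/κ)) 1`.
If `T ≤ L`: `min = 1` and `c L ≤ R`, `L^2 ≤ (R/c)^2 ≤ (R/c)^2 T`. If `T > L`: `c L^2 / T ≤ R`. So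
`c' = min (c / R) ((c / R)^2)` works: `c' * L^2 ≤ T`.
-/

set_option autoImplicit false

namespace Pool.Agent.H70.MX

private theorem num_aux {B c L T : ℝ} (hB : 2 < B) (hc : c = 3 / (512 * B ^ 2)) (hL : 0 < L)
    (hT : 1 ≤ T) (n : ℕ) (hn : (n : ℝ) ≤ L / B) (hn1 : L / B < n + 1) :
    c * L * min 1 (L / T) - 4 * B * c ≤ (n : ℝ) * min ((n : ℝ) - 1) (2 * T) / (64 * T) := by
  have hB0 : 0 < B := by linarith
  have hc0 : 0 < c := by
    rw [hc]
    positivity
  have hT0 : 0 < T := by linarith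
  have hmin1 : min 1 (L / T) ≤ 1 := min_le_left _ _
  by_cases h : L < 4 * B
  · have h1 : c * L * min 1 (L / T) ≤ c * L * 1 :=
      mul_le_mul_of_nonneg_left hmin1 (by positivity)
    have h2 : c * L ≤ c * (4 * B) := mul_le_mul_of_nonneg_left h.le hc0.le
    have h3 : 0 ≤ (n : ℝ) * min ((n : ℝ) - 1) (2 * T) / (64 * T) := by
      apply div_nonneg _ (by positivity)
      rcases Nat.eq_zero_or_pos n with hz | hz
      · rw [hz]
        simp
      · have : (1 : ℝ) ≤ n := by exact_mod_cast hz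
        exact mul_nonneg (by positivity) (le_min (by linarith) (by linarith))
    linarith
  · have h4 : 4 ≤ L / B := by
      rw [le_div_iff₀ hB0]
      linarith [not_lt.1 h]
    have h5 : 3 / 4 * (L / B) ≤ n := by linarith
    have h6 : L / (2 * B) ≤ (n : ℝ) - 1 := by
      have : L / (2 * B) = L / B / 2 := by
        rw [mul_comm, div_div]
      rw [this]
      linarith
    have h7 : 0 ≤ 4 * B * c := by positivity
    set w := min T L with hw
    have hw0 : 0 < w := lt_min hT0 hL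
    have hw1 : w ≤ T := min_le_left _ _
    have hw2 : w ≤ L := min_le_right _ _
    have h8 : min 1 (L / T) = w / T := by
      rw [hw]
      rcases le_total T L with h' | h'
      · rw [min_eq_left h', div_self hT0.ne', min_eq_left]
        rwa [le_div_iff₀ hT0, one_mul]
      · rw [min_eq_right h', min_eq_right]
        rwa [div_le_iff₀ hT0, one_mul]
    have h9 : w / (2 * B) ≤ min ((n : ℝ) - 1) (2 * T) := by
      apply le_min
      · refine le_trans ?_ h6
        exact div_le_div_of_nonneg_right hw2 (by positivity)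
      · rw [div_le_iff₀ (by positivity)]
        nlinarith
    have h10 : 3 / 4 * (L / B) * (w / (2 * B)) ≤ n * min ((n : ℝ) - 1) (2 * T) :=
      mul_le_mul h5 h9 (by positivity) (by positivity)
    have h11 : c * L * min 1 (L / T) = 3 / 4 * (L / B) * (w / (2 * B)) / (64 * T) * (1 / 1) := by
      rw [h8, hc]
      field_simp
      ring
    have h12 : 3 / 4 * (L / B) * (w / (2 * B)) / (64 * T) ≤
        (n : ℝ) * min ((n : ℝ) - 1) (2 * T) / (64 * T) :=
      div_le_div_of_nonneg_right h10 (by positivity)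
    rw [h11]
    linarith

theorem num (a : ℕ) (ha : 1 ≤ a) : ∃ A c : ℝ, 0 < A ∧ 0 < c ∧ ∀ (K T X : ℝ), 1 < K → 1 ≤ T →
    (∀ n : ℕ, X ≤ 2 ^ ((a + 1) * n) +
      2 ^ (a + 8) * T * (K * Real.exp (-((n : ℝ) * min ((n : ℝ) - 1) (2 * T) / (64 * T))))) →
    X ≤ A * T * K * Real.exp (-(c * Real.log K * min 1 (Real.log K / T))) := by
  set B : ℝ := 2 * ((a : ℝ) + 1) * Real.log 2 with hBdef
  have hlog2 := Real.log_two_gt_d9
  have ha' : (1 : ℝ) ≤ a := by exact_mod_cast ha
  have hB : 2 < B := by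
    rw [hBdef]
    nlinarith
  have hB0 : 0 < B := by linarith
  obtain ⟨c, hc⟩ : ∃ c : ℝ, c = 3 / (512 * B ^ 2) := ⟨_, rfl⟩
  have hc0 : 0 < c := by
    rw [hc]
    positivity
  have hc2 : c ≤ 1 / 2 := by
    rw [hc, div_le_iff₀ (by positivity)]
    nlinarith
  refine ⟨1 + 2 ^ (a + 8) * Real.exp (4 * B * c), c, by positivity, hc0, ?_⟩
  intro K T X hK hT hX
  have hK0 : 0 < K := by linarith
  have hL : 0 < Real.log K := Real.log_pos hK
  set L := Real.log K with hLdef
  have hT0 : 0 < T := by linarith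
  have hn := Nat.floor_le (a := L / B) (by positivity)
  have hn1 := Nat.lt_floor_add_one (L / B)
  set n := ⌊L / B⌋₊ with hndef
  set E := Real.exp (-(c * L * min 1 (L / T))) with hE
  have hE0 : 0 < E := Real.exp_pos _
  have hmin1 : min 1 (L / T) ≤ 1 := min_le_left _ _
  have hcl : c * L * min 1 (L / T) ≤ L / 2 := by
    have h1 : c * L * min 1 (L / T) ≤ c * L * 1 :=
      mul_le_mul_of_nonneg_left hmin1 (by positivity)
    have h2 : c * L ≤ 1 / 2 * L := mul_le_mul_of_nonneg_right hc2 hL.le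
    linarith
  have hKe : K = Real.exp L := (Real.exp_log hK0).symm
  have first : (2 : ℝ) ^ ((a + 1) * n) ≤ T * K * E := by
    have h1 : (2 : ℝ) ^ ((a + 1) * n) = Real.exp (n * B / 2) := by
      rw [← Real.exp_log (show (0 : ℝ) < 2 ^ ((a + 1) * n) by positivity), Real.log_pow]
      congr 1
      rw [hBdef]
      push_cast
      ring
    have h2 : (n : ℝ) * B / 2 ≤ L / 2 := by
      rw [le_div_iff₀ hB0] at hn
      linarith
    have h3 : Real.exp (L / 2) ≤ K * E := by
      rw [hKe, hE, ← Real.exp_add]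
      apply Real.exp_le_exp.2
      linarith
    calc (2 : ℝ) ^ ((a + 1) * n) = Real.exp (n * B / 2) := h1
      _ ≤ Real.exp (L / 2) := Real.exp_le_exp.2 h2
      _ ≤ K * E := h3
      _ ≤ T * (K * E) := le_mul_of_one_le_left (by positivity) hT
      _ = T * K * E := by ring
  have second : Real.exp (-((n : ℝ) * min ((n : ℝ) - 1) (2 * T) / (64 * T))) ≤
      Real.exp (4 * B * c) * E := by
    rw [hE, ← Real.exp_add]
    apply Real.exp_le_exp.2
    have := num_aux hB hc hL hT n hn hn1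
    linarith
  have h := hX n
  have h4 : 2 ^ (a + 8) * T * (K * Real.exp (-((n : ℝ) * min ((n : ℝ) - 1) (2 * T) / (64 * T)))) ≤
      2 ^ (a + 8) * T * (K * (Real.exp (4 * B * c) * E)) :=
    mul_le_mul_of_nonneg_left (mul_le_mul_of_nonneg_left second hK0.le) (by positivity)
  calc X ≤ T * K * E + 2 ^ (a + 8) * T * (K * (Real.exp (4 * B * c) * E)) := by linarith
    _ = (1 + 2 ^ (a + 8) * Real.exp (4 * B * c)) * T * K * E := by ring

theorem num2 (A c κ : ℝ) (hA : 0 < A) (hc : 0 < c) (hκ : 0 < κ) : ∃ c' : ℝ, 0 < c' ∧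
    ∀ (K T X : ℝ), 1 < K → 1 ≤ T →
    X ≤ A * T * K * Real.exp (-(c * Real.log K * min 1 (Real.log K / T))) →
    κ * T * K ≤ X → c' * Real.log K ^ 2 ≤ T := by
  set R := max (Real.log (A / κ)) 1 with hR
  have hR1 : 1 ≤ R := le_max_right _ _
  have hR0 : 0 < R := by linarith
  refine ⟨min (c / R) ((c / R) ^ 2), lt_min (by positivity) (by positivity), ?_⟩
  intro K T X hK hT h1 h2
  have hK0 : 0 < K := by linarith
  have hL : 0 < Real.log K := Real.log_pos hK
  set L := Real.log K with hLdef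
  have hT0 : 0 < T := by linarith
  have hs : c * L * min 1 (L / T) ≤ R := by
    refine le_trans ?_ (le_max_left _ _)
    have h3 : κ * (T * K) ≤ A * Real.exp (-(c * L * min 1 (L / T))) * (T * K) := by
      calc κ * (T * K) = κ * T * K := by ring
        _ ≤ X := h2
        _ ≤ _ := h1
        _ = _ := by ring
    have h4 : κ ≤ A * Real.exp (-(c * L * min 1 (L / T))) :=
      le_of_mul_le_mul_right h3 (by positivity)
    rw [Real.le_log_iff_exp_le (by positivity), le_div_iff₀ hκ]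
    rw [Real.exp_neg] at h4
    have h5 := mul_le_mul_of_nonneg_left h4 (Real.exp_pos (c * L * min 1 (L / T))).le
    have h6 : Real.exp (c * L * min 1 (L / T)) * (A * (Real.exp (c * L * min 1 (L / T)))⁻¹) = A := by
      have := (Real.exp_pos (c * L * min 1 (L / T))).ne'
      field_simp
    rw [h6] at h5
    exact h5
  rcases le_total T L with h | h
  · rw [min_eq_left (show (1 : ℝ) ≤ L / T by rwa [le_div_iff₀ hT0, one_mul]), mul_one] at hs
    have h7 : c / R * L ≤ 1 := by
      rw [div_mul_eq_mul_div, div_le_iff₀ hR0]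
      linarith
    have h8 : 0 ≤ c / R * L := by positivity
    calc min (c / R) ((c / R) ^ 2) * L ^ 2 ≤ (c / R) ^ 2 * L ^ 2 :=
          mul_le_mul_of_nonneg_right (min_le_right _ _) (by positivity)
      _ = (c / R * L) ^ 2 := by ring
      _ ≤ 1 := pow_le_one₀ h8 h7
      _ ≤ T := hT
  · rw [min_eq_right (show L / T ≤ 1 by rwa [div_le_iff₀ hT0, one_mul])] at hs
    have h9 : c * L ^ 2 ≤ R * T := by
      have h10 : c * L * (L / T) = c * L ^ 2 / T := by
        field_simp
      rw [h10, div_le_iff₀ hT0] at hs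
      exact hs
    calc min (c / R) ((c / R) ^ 2) * L ^ 2 ≤ (c / R) * L ^ 2 :=
          mul_le_mul_of_nonneg_right (min_le_left _ _) (by positivity)
      _ = c * L ^ 2 / R := by ring
      _ ≤ T := by
          rw [div_le_iff₀ hR0]
          linarith

end Pool.Agent.H70.MX
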