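import Pool.Agent.H70.MX.Iter
import Pool.Agent.H70.MX.HellB
import Pool.Agent.H70.MX.Half
import Pool.Agent.H70.MX.Exist
import Pool.Agent.H70.MX.Num

/-!
# MX-13. Assembly

* `pigeon`: let `M > 0` and `D = dfc (pw q t0)`. There is `s` with `t0 ≤ s`, `s ≤ t0 + M * D` and
  `Ent (pw q (s + 1)) - Ent (pw q s) ≤ 1 / M`. Proof: let `n = ⌊M D⌋₊ + 1 > M D`. If all `s ∈ [t0, t0 + n)` had increment
  `> 1 / M` then `Ent (pw q (t0 + n)) - Ent (pw q t0) > n / M > D` (telescoping), contradicting `dfc_nonneg` for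
  `pw q (t0 + n)`. So some such `s ≤ t0 + n - 1 ≤ t0 + M D`.
* `core`: with `p = law S 1`, `q = law S' 1`, `T = tmix S`: all hypotheses of `iter` and `tv_small` hold (`law_one_isP`,
  `law_one_symm`, `law_one_one`, `law_one_le` with `c = 2 ^ a`, `pw_half` + `tmix_spec` (`tvDist S T ≤ 1/4` unfolds to
  `(1/2) * Σ |law S T x - 1/N| ≤ 1/4`, `law_eq_pw`), `tmix_pos`). Take `t0 = 2 ^ ((a+1) n)`, `M = 2 ^ (a+8) * T` in `pigeon`;
  `tv_small` at `s` gives `tvDist S' s ≤ 1/4`, so `tmix S' ≤ s ≤ t0 + M * dfc (pw q t0)`, and `iter`.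
-/

set_option autoImplicit false
set_option linter.unusedSectionVars false

namespace Pool.Agent.H70.MX

open Finset Pool.Agent.H85.Mix
open scoped Classical

variable {G : Type} [Group G] [Fintype G]

theorem pigeon {q : G → ℝ} (hq : IsP q) (t0 : ℕ) (M : ℝ) (hM : 0 < M) :
    ∃ s : ℕ, (s : ℝ) ≤ t0 + M * dfc (pw q t0) ∧
      Ent (pw q (s + 1)) - Ent (pw q s) ≤ 1 / M := by
  by_contra hcon
  push Not at hcon
  set D := dfc (pw q t0) with hD
  have hD0 : 0 ≤ D := dfc_nonneg (pw_isP hq t0)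
  have hfl : (⌊M * D⌋₊ : ℝ) ≤ M * D := Nat.floor_le (by positivity)
  have hfl2 : M * D < (⌊M * D⌋₊ : ℝ) + 1 := Nat.lt_floor_add_one _
  have key : ∀ j : ℕ, j ≤ ⌊M * D⌋₊ + 1 →
      (j : ℝ) / M ≤ Ent (pw q (t0 + j)) - Ent (pw q t0) := by
    intro j
    induction j with
    | zero => intro _; simp
    | succ j ih =>
      intro hj
      have h1 := ih (by omega)
      have hj' : (j : ℝ) ≤ ⌊M * D⌋₊ := by exact_mod_cast (by omega : j ≤ ⌊M * D⌋₊)
      have h2 := hcon (t0 + j) (by push_cast; linarith)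
      have h3 : ((j + 1 : ℕ) : ℝ) / M = (j : ℝ) / M + 1 / M := by push_cast; ring
      rw [h3, ← add_assoc]
      linarith
  have h1 := key (⌊M * D⌋₊ + 1) le_rfl
  have h2 : 0 ≤ dfc (pw q (t0 + (⌊M * D⌋₊ + 1))) := dfc_nonneg (pw_isP hq _)
  have h3 : D < ((⌊M * D⌋₊ + 1 : ℕ) : ℝ) / M := by
    rw [lt_div_iff₀ hM]
    push_cast
    linarith
  unfold dfc at h2 hD
  linarith

theorem core (S S' : Finset G) (hs : ∀ x ∈ S, x⁻¹ ∈ S) (hs' : ∀ x ∈ S', x⁻¹ ∈ S')
    (hgen : Subgroup.closure (S : Set G) = ⊤) (hsub : S ⊆ S') (hG : 3 ≤ Fintype.card G)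
    (a : ℕ) (ha : 1 ≤ a) (hcard : (S'.card : ℝ) ≤ 2 ^ a * (S.card : ℝ)) (n : ℕ) :
    (tmix S' : ℝ) ≤ 2 ^ ((a + 1) * n) +
      2 ^ (a + 8) * (tmix S : ℝ) * (Real.log (Fintype.card G) *
        Real.exp (-((n : ℝ) * min ((n : ℝ) - 1) (2 * (tmix S : ℝ)) / (64 * (tmix S : ℝ))))) := by
  have hS : S.Nonempty := by
    rw [Finset.nonempty_iff_ne_empty]
    rintro rfl
    have h1 : (⊥ : Subgroup G) = ⊤ := by
      rw [← hgen]
      simp
    have h2 : Fintype.card G ≤ 1 := by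
      rw [Fintype.card_le_one_iff]
      intro x y
      have hx : x ∈ (⊥ : Subgroup G) := h1 ▸ Subgroup.mem_top x
      have hy : y ∈ (⊥ : Subgroup G) := h1 ▸ Subgroup.mem_top y
      rw [Subgroup.mem_bot] at hx hy
      rw [hx, hy]
    omega
  have hS' : S'.Nonempty := hS.mono hsub
  set p := law S 1 with hp
  set q := law S' 1 with hq
  have hpP : IsP p := law_one_isP S hS
  have hqP : IsP q := law_one_isP S' hS'
  have hps : iv p = p := law_one_symm S hs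
  have hqs : iv q = q := law_one_symm S' hs'
  have hq1 : 1 / 2 ≤ q 1 := law_one_one S'
  have h2a : (1 : ℝ) ≤ 2 ^ a := one_le_pow₀ (by norm_num)
  have hle : ∀ x, p x ≤ 2 ^ a * q x := law_one_le S S' hS hsub (2 ^ a) h2a hcard
  have hT : 1 ≤ tmix S := tmix_pos S hS hs hgen (by omega)
  have hTR : (1 : ℝ) ≤ (tmix S : ℝ) := by exact_mod_cast hT
  have hspec := tmix_spec S hS hs hgen
  set T := tmix S with hTdef
  have htv : ∑ x, |pw p T x - 1 / (Fintype.card G : ℝ)| ≤ 1 / 2 := by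
    unfold tvDist at hspec
    rw [law_eq_pw] at hspec
    linarith
  have hmix := pw_half hpP hps T htv
  obtain ⟨s, hs1, hs2⟩ := pigeon hqP (2 ^ ((a + 1) * n)) (2 ^ (a + 8) * T) (by positivity)
  have h3 := tv_small hpP hps hqP a T s hT ha hle hq1 hmix hs2
  have h4 : tvDist S' s ≤ 1 / 4 := by
    unfold tvDist
    rw [law_eq_pw]
    linarith
  have h5 : (tmix S' : ℝ) ≤ s := by exact_mod_cast tmix_le S' s h4
  have h6 := iter hpP hqP hqs a ha hle T hT hmix n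
  refine h5.trans (hs1.trans ?_)
  push_cast
  have h7 : (2 : ℝ) ^ (a + 8) * T * dfc (pw q (2 ^ ((a + 1) * n))) ≤ 2 ^ (a + 8) * T *
      (Real.log (Fintype.card G) *
        Real.exp (-((n : ℝ) * min ((n : ℝ) - 1) (2 * T) / (64 * T)))) :=
    mul_le_mul_of_nonneg_left h6 (by positivity)
  linarith

end Pool.Agent.H70.MX
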