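import Pool.Agent.H70.MX.Conv

/-!
# Powers and the entropy functional `psi`
-/

set_option autoImplicit false
set_option linter.unusedSectionVars false

namespace Pool.Agent.H70.MX

open Finset
open scoped Classical

variable {G : Type} [Group G] [Fintype G]

/-- convolution powers -/
noncomputable def pw (f : G → ℝ) : ℕ → G → ℝ
  | 0 => dl 1
  | n + 1 => cv f (pw f n)

/-- `psi ρ κ = Ent (ρ * κ * ρ) - Ent ρ` -/
noncomputable def psi (ρ κ : G → ℝ) : ℝ := Ent (cv (cv ρ κ) ρ) - Ent ρ

/-- the uniform law -/
noncomputable def unif (G : Type) [Fintype G] : G → ℝ := fun _ => 1 / (Fintype.card G : ℝ)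

/-- the deficit of entropy -/
noncomputable def dfc (f : G → ℝ) : ℝ := Real.log (Fintype.card G) - Ent f

end Pool.Agent.H70.MX
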