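import Pool.Agent.H70.MX.Pow

/-!
# MX-9. Entropy increments dominate the Dirichlet form of the square root

Notation: `f` a probability law (later `f = pw q s`), `f' = cv q f`, `F = √f`, `F' = √f'` (pointwise),
`gf x = f (g⁻¹ * x)`.

* `kl_ge`: for `a ≥ 0`, `b ≥ 0` with (`b = 0 → a = 0`): `(a - b) + (√a - √b)^2 ≤ a * (log a - log b)`. If `a = 0`: the
  left side is `- b + b = 0`. If `a, b > 0` put `r = √(b / a)`: the claim is `1 - r^2 + (1 - r)^2 ≤ - 2 log r`, i.e.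
  `log r ≤ r - 1` (`Real.log_le_sub_one_of_pos`).
* `hell_sum`: `Ent f' = - Σ x, f' x * log (f' x) = - Σ g, q g * Σ x, gf x * log (f' x)` and
  `Ent f = - Σ x, gf x * log (gf x)` for every `g` (translation invariance), so
  `Ent f' - Ent f = Σ g, q g * Σ x, gf x * (log (gf x) - log (f' x)) ≥ Σ g, q g * Σ x, (F (g⁻¹ * x) - F' x)^2`
  by `kl_ge` (for `q g > 0` we have `f' x ≥ q g * gf x`, so `f' x = 0 → gf x = 0`) and `Σ x, (gf x - f' x) = 0`.
* `hell_p`: `q 1 ≥ 1 / 2` gives (`g = 1`) `Σ x, (F x - F' x)^2 ≤ 2 δ`, where `δ = Ent f' - Ent f`, and `p ≤ 2 ^ a * q` gives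
  `Σ g, p g * Σ x, (F (g⁻¹ * x) - F' x)^2 ≤ 2 ^ a * δ`. By `(u - v)^2 ≤ 2 (u - w)^2 + 2 (w - v)^2`:
  `Σ g, p g * Σ x, (F (g⁻¹ * x) - F x)^2 ≤ 2 * 2 ^ a * δ + 4 * δ ≤ 4 * 2 ^ a * δ` (`a ≥ 1`, `δ ≥ 0`). And
  `Σ x, (F (g⁻¹ * x) - F x)^2 = 2 - 2 * Σ x, F (g⁻¹ * x) * F x` (as `F^2 = f` has sum `1`).
-/

set_option autoImplicit false
set_option linter.unusedSectionVars false

namespace Pool.Agent.H70.MX

open Finset
open scoped Classical

variable {G : Type} [Group G] [Fintype G]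

theorem kl_ge (a b : ℝ) (ha : 0 ≤ a) (hb : 0 ≤ b) (h : b = 0 → a = 0) :
    (a - b) + (√a - √b) ^ 2 ≤ a * (Real.log a - Real.log b) := by
  rcases ha.eq_or_lt with ha0 | ha0
  · rw [← ha0]
    have := Real.sq_sqrt hb
    simp
    nlinarith
  · have hb0 : 0 < b := by
      rcases hb.eq_or_lt with hb0 | hb0
      · exact absurd (h hb0.symm) ha0.ne'
      · exact hb0
    obtain ⟨A, hA, rfl⟩ : ∃ A : ℝ, 0 < A ∧ a = A ^ 2 :=
      ⟨√a, Real.sqrt_pos.2 ha0, (Real.sq_sqrt ha).symm⟩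
    obtain ⟨B, hB, rfl⟩ : ∃ B : ℝ, 0 < B ∧ b = B ^ 2 :=
      ⟨√b, Real.sqrt_pos.2 hb0, (Real.sq_sqrt hb).symm⟩
    rw [Real.sqrt_sq hA.le, Real.sqrt_sq hB.le, Real.log_pow, Real.log_pow]
    have h1 := Real.log_le_sub_one_of_pos (div_pos hB hA)
    rw [Real.log_div hB.ne' hA.ne'] at h1
    have h2 := mul_le_mul_of_nonneg_left h1 (sq_nonneg A)
    have h3 : A ^ 2 * (B / A - 1) = A * B - A ^ 2 := by
      field_simp
    rw [h3] at h2
    push_cast
    nlinarith [h2]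

theorem hell_sum {q f : G → ℝ} (hq : IsP q) (hf : IsP f) :
    ∑ g, q g * ∑ x, (√(f (g⁻¹ * x)) - √(cv q f x)) ^ 2 ≤ Ent (cv q f) - Ent f := by
  have hF := hq.cv hf
  have h1 : ∀ g, q g * ∑ x, (√(f (g⁻¹ * x)) - √(cv q f x)) ^ 2 ≤
      q g * ∑ x, f (g⁻¹ * x) * (Real.log (f (g⁻¹ * x)) - Real.log (cv q f x)) := by
    intro g
    rcases (hq.1 g).eq_or_lt with hg | hg
    · rw [← hg, zero_mul, zero_mul]
    · refine mul_le_mul_of_nonneg_left ?_ hg.le
      have h2 : ∀ x, (f (g⁻¹ * x) - cv q f x) + (√(f (g⁻¹ * x)) - √(cv q f x)) ^ 2 ≤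
          f (g⁻¹ * x) * (Real.log (f (g⁻¹ * x)) - Real.log (cv q f x)) := by
        intro x
        refine kl_ge _ _ (hf.1 _) (hF.1 x) fun h0 => ?_
        have h3 : q g * f (g⁻¹ * x) ≤ cv q f x := by
          unfold cv
          exact Finset.single_le_sum (f := fun y => q y * f (y⁻¹ * x))
            (fun y _ => mul_nonneg (hq.1 y) (hf.1 _)) (Finset.mem_univ g)
        rw [h0] at h3
        have h4 := hf.1 (g⁻¹ * x)
        nlinarith
      have h3 := Finset.sum_le_sum fun x (_ : x ∈ (Finset.univ : Finset G)) => h2 x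
      rw [Finset.sum_add_distrib, Finset.sum_sub_distrib, sum_left f g⁻¹, hf.2, hF.2] at h3
      linarith
  refine (Finset.sum_le_sum fun g _ => h1 g).trans (le_of_eq ?_)
  simp only [mul_sub, Finset.sum_sub_distrib]
  have e1 : ∑ g, q g * ∑ x, f (g⁻¹ * x) * Real.log (f (g⁻¹ * x)) = - Ent f := by
    have e2 : ∀ g, ∑ x, f (g⁻¹ * x) * Real.log (f (g⁻¹ * x)) = - Ent f := by
      intro g
      rw [sum_left (fun x => f x * Real.log (f x)) g⁻¹]
      unfold Ent Real.negMulLog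
      rw [← Finset.sum_neg_distrib]
      refine Finset.sum_congr rfl fun x _ => ?_
      ring
    simp only [e2]
    rw [← Finset.sum_mul, hq.2, one_mul]
  have e3 : ∑ g, q g * ∑ x, f (g⁻¹ * x) * Real.log (cv q f x) = - Ent (cv q f) := by
    simp only [Finset.mul_sum]
    rw [Finset.sum_comm]
    unfold Ent Real.negMulLog
    rw [← Finset.sum_neg_distrib]
    refine Finset.sum_congr rfl fun x _ => ?_
    have : cv q f x = ∑ g, q g * f (g⁻¹ * x) := rfl
    calc ∑ g, q g * (f (g⁻¹ * x) * Real.log (cv q f x))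
        = (∑ g, q g * f (g⁻¹ * x)) * Real.log (cv q f x) := by
          rw [Finset.sum_mul]
          exact Finset.sum_congr rfl fun g _ => by ring
      _ = - (- cv q f x * Real.log (cv q f x)) := by
          rw [← this]
          ring
  rw [e1, e3]
  ring

/-- `<F, p F>` is close to `1` -/
theorem hell_p {p q f : G → ℝ} (hp : IsP p) (hq : IsP q) (hf : IsP f) (a : ℕ) (ha : 1 ≤ a)
    (hle : ∀ x, p x ≤ 2 ^ a * q x) (hq1 : 1 / 2 ≤ q 1) :
    1 - 2 * 2 ^ a * (Ent (cv q f) - Ent f) ≤ ∑ x, √(f x) * cv p (fun y => √(f y)) x := by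
  set δ := Ent (cv q f) - Ent f with hδ
  have hδ0 : 0 ≤ δ := by
    have := Ent_le_cv_right (f := q) (g := f) hq hf.1
    linarith
  have hs := hell_sum hq hf
  rw [← hδ] at hs
  set H : G → ℝ := fun g => ∑ x, (√(f (g⁻¹ * x)) - √(cv q f x)) ^ 2 with hH
  have hH0 : ∀ g, 0 ≤ H g := fun g => Finset.sum_nonneg fun x _ => sq_nonneg _
  have hs' : ∑ g, q g * H g ≤ δ := hs
  have h1 : H 1 ≤ 2 * δ := by
    have h2 : q 1 * H 1 ≤ ∑ g, q g * H g :=
      Finset.single_le_sum (f := fun g => q g * H g) (fun g _ => mul_nonneg (hq.1 g) (hH0 g))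
        (Finset.mem_univ 1)
    have h3 : 1 / 2 * H 1 ≤ q 1 * H 1 := mul_le_mul_of_nonneg_right hq1 (hH0 1)
    linarith
  have h2 : ∑ g, p g * H g ≤ 2 ^ a * δ := by
    have h3 : ∑ g, p g * H g ≤ ∑ g, 2 ^ a * (q g * H g) := by
      refine Finset.sum_le_sum fun g _ => ?_
      have := mul_le_mul_of_nonneg_right (hle g) (hH0 g)
      linarith
    rw [← Finset.mul_sum] at h3
    exact h3.trans (mul_le_mul_of_nonneg_left hs' (by positivity))
  set K : G → ℝ := fun g => ∑ x, (√(f (g⁻¹ * x)) - √(f x)) ^ 2 with hK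
  have h3 : ∀ g, K g ≤ 2 * H g + 2 * H 1 := by
    intro g
    rw [hK, hH]
    simp only
    rw [Finset.mul_sum, Finset.mul_sum, ← Finset.sum_add_distrib]
    refine Finset.sum_le_sum fun x _ => ?_
    rw [inv_one, one_mul]
    nlinarith [sq_nonneg (√(f (g⁻¹ * x)) - √(cv q f x) + (√(f x) - √(cv q f x)))]
  have h4 : ∑ g, p g * K g ≤ 4 * 2 ^ a * δ := by
    have h5 : ∑ g, p g * K g ≤ ∑ g, (2 * (p g * H g) + 2 * H 1 * p g) := by
      refine Finset.sum_le_sum fun g _ => ?_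
      have := mul_le_mul_of_nonneg_left (h3 g) (hp.1 g)
      linarith
    rw [Finset.sum_add_distrib, ← Finset.mul_sum, ← Finset.mul_sum, hp.2] at h5
    have h6 : (2 : ℝ) ≤ 2 ^ a := by
      calc (2 : ℝ) = 2 ^ 1 := by norm_num
        _ ≤ 2 ^ a := pow_le_pow_right₀ (by norm_num) ha
    have h7 : 2 * δ ≤ 2 ^ a * δ := mul_le_mul_of_nonneg_right h6 hδ0
    linarith
  have h5 : ∀ g, K g = 2 - 2 * ∑ x, √(f (g⁻¹ * x)) * √(f x) := by
    intro g
    rw [hK]
    simp only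
    have e1 : ∀ x, (√(f (g⁻¹ * x)) - √(f x)) ^ 2 =
        f (g⁻¹ * x) + f x - 2 * (√(f (g⁻¹ * x)) * √(f x)) := by
      intro x
      have e2 := Real.sq_sqrt (hf.1 (g⁻¹ * x))
      have e3 := Real.sq_sqrt (hf.1 x)
      nlinarith
    simp only [e1]
    rw [Finset.sum_sub_distrib, Finset.sum_add_distrib, sum_left f g⁻¹, hf.2, ← Finset.mul_sum]
    ring
  have h6 : ∑ g, p g * K g = 2 - 2 * ∑ x, √(f x) * cv p (fun y => √(f y)) x := by
    simp only [h5, mul_sub, Finset.sum_sub_distrib]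
    rw [← Finset.sum_mul, hp.2, one_mul]
    congr 1
    have e1 : ∑ x, √(f x) * cv p (fun y => √(f y)) x
        = ∑ g, p g * ∑ x, √(f (g⁻¹ * x)) * √(f x) := by
      unfold cv
      simp only [Finset.mul_sum]
      rw [Finset.sum_comm]
      refine Finset.sum_congr rfl fun g _ => Finset.sum_congr rfl fun x _ => ?_
      ring
    rw [e1, Finset.mul_sum]
    refine Finset.sum_congr rfl fun g _ => ?_
    ring
  rw [h6] at h4
  linarith

end Pool.Agent.H70.MX
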