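import Pool.Agent.H70.MX.Psi
import Pool.Agent.H70.MX.Pow

/-!
# MX-6. Lower bound for `psi ρ (pw p k)`

* `psi_unif`: `cv (cv ρ unif) ρ = unif` (`cv_unif`, `cv_unif_left`), `Ent_unif`.
* `psi_pw_le`: induction on `n`, `pw f (n + 2) = cv f (pw f (n + 1))`, `psi_cv_le`; `pw f 1 = f`.
* `psi_low`: let `n = ⌈2 T / k⌉`, so `n ≥ 1`, `2 T ≤ k * n` and `k * n ≤ 2 T + k ≤ 4 T` (`k ≤ 2 T`). Put `m = k * n`.
  `pw p m ≥ 1 / (2 N) = (1 / 2) * unif` pointwise, so by `psi_le_of_ge` (c = 1/2) and `psi_unif`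
  `dfc ρ / 2 ≤ psi ρ (pw p m)`, and `pw p m = pw (pw p k) n` (`pw_mul`), so `psi ρ (pw p m) ≤ n * psi ρ (pw p k)`.
  Hence `psi ρ (pw p k) ≥ dfc ρ / (2 n)` and `n ≤ 4 T / k`, i.e. `k * dfc ρ / (8 T) ≤ psi ρ (pw p k)`.
-/

set_option autoImplicit false
set_option linter.unusedSectionVars false

namespace Pool.Agent.H70.MX

open Finset
open scoped Classical

variable {G : Type} [Group G] [Fintype G]

theorem psi_unif {ρ : G → ℝ} (hρ : IsP ρ) : psi ρ (unif G) = dfc ρ := by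
  unfold psi dfc
  rw [cv_unif hρ, cv_unif_left hρ, Ent_unif]

theorem psi_pw_le {ρ f : G → ℝ} (hρ : IsP ρ) (hs : iv ρ = ρ) (hf : IsP f) (n : ℕ) :
    psi ρ (pw f (n + 1)) ≤ ((n : ℝ) + 1) * psi ρ f := by
  induction n with
  | zero => simp [pw_one]
  | succ n ih =>
    rw [pw_succ]
    have h1 := psi_cv_le hρ hs hf (pw_isP hf (n + 1))
    push_cast
    linarith

theorem psi_low {ρ p : G → ℝ} (hρ : IsP ρ) (hs : iv ρ = ρ) (hp : IsP p) (T : ℕ)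
    (hmix : ∀ m, 2 * T ≤ m → ∀ x, 1 / (2 * (Fintype.card G : ℝ)) ≤ pw p m x)
    (k : ℕ) (hk : 1 ≤ k) (hkT : k ≤ 2 * T) :
    (k : ℝ) * dfc ρ / (8 * (T : ℝ)) ≤ psi ρ (pw p k) := by
  obtain ⟨n, hn⟩ : ∃ n, n = (2 * T - 1) / k := ⟨_, rfl⟩
  have h1 : k * n ≤ 2 * T - 1 := by
    rw [hn]
    exact Nat.mul_div_le _ _
  have h2 : 2 * T - 1 < k * (n + 1) := by
    rw [hn]
    exact Nat.lt_mul_div_succ _ hk
  have h3 : 2 * T ≤ k * (n + 1) := by omega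
  have h4 : k * (n + 1) ≤ 4 * T := by
    rw [Nat.mul_succ]
    omega
  have hT : 1 ≤ T := by omega
  have hN := card_pos' (G := G)
  have h5 : (1 / 2 : ℝ) * psi ρ (unif G) ≤ psi ρ (pw p (k * (n + 1))) := by
    refine psi_le_of_ge hρ (pw_isP hp _) unif_isP (1 / 2) (by norm_num) fun x => ?_
    refine le_trans (le_of_eq ?_) (hmix (k * (n + 1)) h3 x)
    unfold unif
    field_simp
  rw [psi_unif hρ, pw_mul] at h5
  have h6 := psi_pw_le hρ hs (pw_isP hp k) n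
  have h7 : 0 ≤ psi ρ (pw p k) := psi_nonneg hρ (pw_isP hp k)
  have hT' : (0 : ℝ) < 8 * (T : ℝ) := by
    have : (0 : ℝ) < T := by exact_mod_cast hT
    linarith
  rw [div_le_iff₀ hT']
  have hk' : (0 : ℝ) < k := by exact_mod_cast hk
  have h8 : (k : ℝ) * ((n : ℝ) + 1) ≤ 4 * T := by exact_mod_cast h4
  have h9 : dfc ρ ≤ 2 * (((n : ℝ) + 1) * psi ρ (pw p k)) := by linarith
  calc (k : ℝ) * dfc ρ ≤ k * (2 * (((n : ℝ) + 1) * psi ρ (pw p k))) :=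
        mul_le_mul_of_nonneg_left h9 hk'.le
    _ = 2 * ((k : ℝ) * ((n : ℝ) + 1)) * psi ρ (pw p k) := by ring
    _ ≤ 2 * (4 * T) * psi ρ (pw p k) := by
        refine mul_le_mul_of_nonneg_right ?_ h7
        linarith
    _ = psi ρ (pw p k) * (8 * T) := by ring

end Pool.Agent.H70.MX
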