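import Pool.Agent.H70.MX.Block
import Pool.Agent.H70.MX.PsiLow

/-!
# MX-8. Iteration of the block lemma

`step`: `block` and `psi_low` (with `ρ = pw q t`, symmetric by `iv_pw`):
`k * dfc (pw q t) / (8 T) ≤ psi (pw q t) (pw p k) ≤ 4 * (dfc (pw q t) - dfc (pw q (4 t)))`.
(The hypothesis `2 ^ ((a + 1) * k) ≤ 2 * t` gives `k * 2 ^ (a * k) ≤ 2 ^ k * 2 ^ (a * k) ≤ 2 t`, `Nat.lt_two_pow_self`.)

`iter`: put `u = a + 1 ≥ 2`, `D i = dfc (pw q (2 ^ (u * i)))`. For `i ≥ 1` apply `step` with `t = 2 ^ (u * i)`,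
`k = min i (2 * T) ≥ 1`; `4 * t ≤ 2 ^ (u * (i + 1))` because `u ≥ 2`, so
`D (i + 1) ≤ (1 - min i (2 T) / (32 T)) * D i ≤ exp (- min i (2 T) / (32 T)) * D i` (`Ent_pw_mono`, `dfc_nonneg`,
`Real.add_one_le_exp`). For `i = 0` the same holds trivially (`min 0 _ = 0`, `Ent_pw_mono`). By induction
`D n ≤ K * exp (- (Σ i ∈ range n, min i (2 T)) / (32 T))`, `K = log N` (`dfc_le`). Finally
`2 * Σ i ∈ range n, min i M = Σ i ∈ range n, (min i M + min (n - 1 - i) M) ≥ n * min (n - 1) M`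
(`Finset.sum_range_reflect`), `M = 2 T`.
-/

set_option autoImplicit false
set_option linter.unusedSectionVars false

namespace Pool.Agent.H70.MX

open Finset
open scoped Classical

variable {G : Type} [Group G] [Fintype G]

theorem step {p q : G → ℝ} (hp : IsP p) (hq : IsP q) (hs : iv q = q) (a : ℕ) (ha : 1 ≤ a)
    (hle : ∀ x, p x ≤ 2 ^ a * q x) (T : ℕ) (hT : 1 ≤ T)
    (hmix : ∀ m, 2 * T ≤ m → ∀ x, 1 / (2 * (Fintype.card G : ℝ)) ≤ pw p m x)
    (k t : ℕ) (hk : 1 ≤ k) (hkT : k ≤ 2 * T) (hkt : 2 ^ ((a + 1) * k) ≤ 2 * t) :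
    dfc (pw q (4 * t)) ≤ (1 - (k : ℝ) / (32 * T)) * dfc (pw q t) := by
  have h1 : k * 2 ^ (a * k) ≤ 2 * t := by
    refine le_trans ?_ hkt
    have h2 : (a + 1) * k = k + a * k := by ring
    rw [h2, pow_add]
    exact Nat.mul_le_mul_right _ Nat.lt_two_pow_self.le
  have h3 := block hp hq hs a ha hle k t hk h1
  have h4 := psi_low (pw_isP hq t) (iv_pw hs t) hp T hmix k hk hkT
  have h5 : (1 - (k : ℝ) / (32 * T)) * dfc (pw q t) =
      dfc (pw q t) - ((k : ℝ) * dfc (pw q t) / (8 * (T : ℝ))) / 4 := by ring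
  have h6 : Ent (pw q (4 * t)) - Ent (pw q t) = dfc (pw q t) - dfc (pw q (4 * t)) := by
    unfold dfc
    ring
  rw [h6] at h3
  rw [h5]
  linarith

theorem Iter_dfc_mono {f : G → ℝ} (hf : IsP f) {m n : ℕ} (h : m ≤ n) :
    dfc (pw f n) ≤ dfc (pw f m) := by
  unfold dfc
  have := Ent_pw_mono hf m n h
  linarith

theorem Iter_one {p q : G → ℝ} (hp : IsP p) (hq : IsP q) (hs : iv q = q) (a : ℕ) (ha : 1 ≤ a)
    (hle : ∀ x, p x ≤ 2 ^ a * q x) (T : ℕ) (hT : 1 ≤ T)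
    (hmix : ∀ m, 2 * T ≤ m → ∀ x, 1 / (2 * (Fintype.card G : ℝ)) ≤ pw p m x) (i : ℕ) :
    dfc (pw q (2 ^ ((a + 1) * (i + 1)))) ≤
      Real.exp (-(min (i : ℝ) (2 * T) / (32 * T))) * dfc (pw q (2 ^ ((a + 1) * i))) := by
  have hD := dfc_nonneg (pw_isP hq (2 ^ ((a + 1) * i)))
  have h4 : 4 * 2 ^ ((a + 1) * i) ≤ 2 ^ ((a + 1) * (i + 1)) := by
    rw [mul_add, mul_one, pow_add, mul_comm]
    refine Nat.mul_le_mul_left _ ?_
    calc 4 = 2 ^ 2 := by norm_num
      _ ≤ 2 ^ (a + 1) := Nat.pow_le_pow_right (by norm_num) (by omega)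
  rcases Nat.eq_zero_or_pos i with hi | hi
  · subst hi
    have h0 : min ((0 : ℕ) : ℝ) (2 * T) = 0 := by
      rw [Nat.cast_zero]
      exact min_eq_left (by positivity)
    rw [h0]
    simp only [zero_div, neg_zero, Real.exp_zero, one_mul]
    exact Iter_dfc_mono hq (Nat.pow_le_pow_right (by norm_num) (by simp))
  · have hk : 1 ≤ min i (2 * T) := le_min hi (by omega)
    have h1 := step hp hq hs a ha hle T hT hmix (min i (2 * T)) (2 ^ ((a + 1) * i)) hk
      (min_le_right _ _) (by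
        refine le_trans (Nat.pow_le_pow_right (by norm_num)
          (Nat.mul_le_mul_left _ (min_le_left _ _))) ?_
        omega)
    have h2 := Iter_dfc_mono hq h4
    refine (h2.trans h1).trans (mul_le_mul_of_nonneg_right ?_ hD)
    have h5 : ((min i (2 * T) : ℕ) : ℝ) = min (i : ℝ) (2 * T) := by
      push_cast
      rfl
    rw [h5]
    have h6 := Real.add_one_le_exp (-(min (i : ℝ) (2 * T) / (32 * T)))
    linarith

theorem Iter_sum (M : ℝ) (hM : 0 ≤ M) (n : ℕ) :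
    (n : ℝ) * min ((n : ℝ) - 1) M ≤ 2 * ∑ i ∈ range n, min (i : ℝ) M := by
  have h1 : ∑ i ∈ range n, min (((n - 1 - i : ℕ)) : ℝ) M = ∑ i ∈ range n, min (i : ℝ) M :=
    Finset.sum_range_reflect (fun i : ℕ => min (i : ℝ) M) n
  have h2 : 2 * ∑ i ∈ range n, min (i : ℝ) M =
      ∑ i ∈ range n, (min (i : ℝ) M + min (((n - 1 - i : ℕ)) : ℝ) M) := by
    rw [sum_add_distrib, h1]
    ring
  rw [h2]
  have h3 : (n : ℝ) * min ((n : ℝ) - 1) M = ∑ i ∈ range n, min ((n : ℝ) - 1) M := by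
    simp
  rw [h3]
  refine sum_le_sum fun i hi => ?_
  have hin : i < n := mem_range.mp hi
  have h4 : (((n - 1 - i : ℕ)) : ℝ) = (n : ℝ) - 1 - i := by
    have h5 : n - 1 - i + i + 1 = n := by omega
    have h6 : ((n - 1 - i : ℕ) : ℝ) + i + 1 = n := by exact_mod_cast h5
    linarith
  have h0 : (0 : ℝ) ≤ (((n - 1 - i : ℕ)) : ℝ) := Nat.cast_nonneg _
  have h0' : (0 : ℝ) ≤ (i : ℝ) := Nat.cast_nonneg _
  rcases le_total (i : ℝ) M with ha | ha
  · rcases le_total (((n - 1 - i : ℕ)) : ℝ) M with hb | hb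
    · rw [min_eq_left ha, min_eq_left hb, h4]
      refine (min_le_left _ _).trans ?_
      linarith
    · rw [min_eq_right hb]
      refine (min_le_right _ _).trans ?_
      have := le_min h0' hM
      linarith
  · rw [min_eq_right ha]
    refine (min_le_right _ _).trans ?_
    have := le_min h0 hM
    linarith

theorem iter {p q : G → ℝ} (hp : IsP p) (hq : IsP q) (hs : iv q = q) (a : ℕ) (ha : 1 ≤ a)
    (hle : ∀ x, p x ≤ 2 ^ a * q x) (T : ℕ) (hT : 1 ≤ T)
    (hmix : ∀ m, 2 * T ≤ m → ∀ x, 1 / (2 * (Fintype.card G : ℝ)) ≤ pw p m x) (n : ℕ) :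
    dfc (pw q (2 ^ ((a + 1) * n))) ≤ Real.log (Fintype.card G) *
      Real.exp (-((n : ℝ) * min ((n : ℝ) - 1) (2 * T) / (64 * T))) := by
  have hTr : (0 : ℝ) < T := by exact_mod_cast hT
  have key : ∀ n : ℕ, dfc (pw q (2 ^ ((a + 1) * n))) ≤ Real.log (Fintype.card G) *
      Real.exp (-((∑ i ∈ range n, min (i : ℝ) (2 * T)) / (32 * T))) := by
    intro n
    induction n with
    | zero =>
      simp only [range_zero, sum_empty, zero_div, neg_zero, Real.exp_zero, mul_one]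
      exact dfc_le (pw_isP hq _)
    | succ n ih =>
      refine (Iter_one hp hq hs a ha hle T hT hmix n).trans ?_
      refine (mul_le_mul_of_nonneg_left ih (Real.exp_pos _).le).trans (le_of_eq ?_)
      rw [sum_range_succ, mul_left_comm, ← Real.exp_add]
      congr 2
      ring
  refine (key n).trans ?_
  have hK : 0 ≤ Real.log (Fintype.card G : ℝ) := Real.log_natCast_nonneg _
  refine mul_le_mul_of_nonneg_left (Real.exp_le_exp.mpr (neg_le_neg ?_)) hK
  have h1 := Iter_sum (2 * (T : ℝ)) (by positivity) n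
  rw [div_le_div_iff₀ (by positivity) (by positivity)]
  nlinarith

end Pool.Agent.H70.MX
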