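import Pool.Agent.H70.MX.Pow
import Pool.Agent.H85.Mix.Basic

/-!
# MX-4. The laws of the lazy walk are convolution powers

`law`, `lazyStep`, `law_add`, `law_nonneg`, `sum_law` are in `Pool/Agent/H85/Mix/Basic.lean`
(`law_add S s t x : law S (s + t) x = Σ y, law S s y * law S t (y⁻¹ * x)`, i.e. `law S (s + t) = cv (law S s) (law S t)`;
`law S 0 = dl 1` by definition). `law_eq_pw`: induction on `t` with `law_add S 1 t`.
`law_one`: unfold `law`, `lazyStep`; `Σ s ∈ S, (if x * s⁻¹ = 1 then 1 else 0) = (if x ∈ S then 1 else 0)`.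
`law_one_symm`: `S` symmetric, so `x⁻¹ ∈ S ↔ x ∈ S`. `law_one_le`: for `S ⊆ S'`, `|S'| ≤ c * |S|`, `1 ≤ c`:
`1 / (2 |S|) ≤ c / (2 |S'|)`, and the atom at `1`: `1 / 2 ≤ c / 2`.
-/

set_option autoImplicit false
set_option linter.unusedSectionVars false

namespace Pool.Agent.H70.MX

open Finset Pool.Agent.H85.Mix
open scoped Classical

variable {G : Type} [Group G] [Fintype G]

theorem law_eq_pw (S : Finset G) (t : ℕ) : law S t = pw (law S 1) t := by
  induction t with
  | zero => rfl
  | succ t ih =>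
    rw [pw_succ, ← ih]
    funext x
    rw [Nat.add_comm, law_add]
    rfl

theorem law_one (S : Finset G) (x : G) : law S 1 x =
    (if x = 1 then 1 / 2 else 0) + (if x ∈ S then 1 / (2 * (S.card : ℝ)) else 0) := by
  have h1 : law S 1 x = lazyStep S (fun x => if x = 1 then (1 : ℝ) else 0) x := rfl
  rw [h1]
  unfold lazyStep
  have h2 : ∀ s : G, (if x * s⁻¹ = 1 then (1 : ℝ) else 0) = if x = s then 1 else 0 := by
    intro s
    simp only [mul_inv_eq_one]
  simp only [h2]
  rw [Finset.sum_ite_eq S x (fun _ => (1 : ℝ))]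
  congr 1
  · split_ifs <;> norm_num
  · split_ifs <;> simp

theorem law_one_isP (S : Finset G) (hS : S.Nonempty) : IsP (law S 1) :=
  ⟨law_nonneg S 1, sum_law S hS 1⟩

theorem law_one_symm (S : Finset G) (hs : ∀ x ∈ S, x⁻¹ ∈ S) : iv (law S 1) = law S 1 := by
  funext x
  unfold iv
  rw [law_one, law_one]
  have h : x⁻¹ ∈ S ↔ x ∈ S := ⟨fun h => by simpa using hs _ h, fun h => hs _ h⟩
  simp only [inv_eq_one, h]

theorem law_one_one (S : Finset G) : 1 / 2 ≤ law S 1 1 := by
  rw [law_one, if_pos rfl]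
  have : (0 : ℝ) ≤ if (1 : G) ∈ S then 1 / (2 * (S.card : ℝ)) else 0 := by
    split_ifs
    · positivity
    · exact le_rfl
  linarith

theorem law_one_le (S S' : Finset G) (hS : S.Nonempty) (hsub : S ⊆ S') (c : ℝ) (hc : 1 ≤ c)
    (hcard : (S'.card : ℝ) ≤ c * (S.card : ℝ)) (x : G) : law S 1 x ≤ c * law S' 1 x := by
  rw [law_one, law_one, mul_add]
  have hS0 : (0 : ℝ) < S.card := by exact_mod_cast hS.card_pos
  have hS0' : (0 : ℝ) < S'.card := by exact_mod_cast (hS.mono hsub).card_pos
  refine add_le_add ?_ ?_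
  · split_ifs
    · linarith
    · simp
  · by_cases hx : x ∈ S
    · rw [if_pos hx, if_pos (hsub hx), mul_one_div, div_le_div_iff₀ (by positivity) (by positivity)]
      linarith
    · rw [if_neg hx]
      refine mul_nonneg (by linarith) ?_
      split_ifs
      · positivity
      · exact le_rfl

end Pool.Agent.H70.MX
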