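import Pool.Agent.H70.MX.Ruzsa
import Pool.Agent.H70.MX.Defs

/-!
# MX-3. The functional `psi ρ κ = Ent (ρ * κ * ρ) - Ent ρ`, for a symmetric law `ρ`

* `psi_cv_le`: `ruzsa` with `a = ρ * κ`, `b = l * ρ`, `v = ρ` (`iv ρ = ρ`), `cv_assoc`.
* `psi_iv`: `iv (ρ * κ * ρ) = iv ρ * iv κ * iv ρ = ρ * iv κ * ρ`, `Ent_iv`, `iv_cv`, `cv_assoc`.
* `psi_nonneg`: `Ent_le_cv_right` (with `cv (cv ρ κ) ρ`).
* `psi_sum_le`: linearity (`cv_sum_right`, `cv_sum_left`) and `Ent_concave`.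
* `psi_add_le`: the same with two terms, `cv_add_right`, `cv_add_left`, `Ent_concave₂`.
* `psi_sub_le`: (i) for every `y`: `l = dl y⁻¹ * (dl y * l)`, so `psi ρ l ≤ psi ρ (dl y⁻¹) + psi ρ (dl y * l)`
  and `psi ρ (dl y⁻¹) = psi ρ (dl y)` by `psi_iv` (`iv_dl`); (ii) `cv_eq_sum`: `κ * l = Σ y, κ y * (dl y * l)`, and
  `κ = Σ y, κ y * dl y`, so by `psi_sum_le`
  `psi ρ (κ * l) ≥ Σ y, κ y * psi ρ (dl y * l) ≥ Σ y, κ y * (psi ρ l - psi ρ (dl y)) ≥ psi ρ l - psi ρ κ`.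
* `psi_le_of_ge`: `κ ≥ c * l` pointwise, `0 ≤ c < 1`: `κ = c * l + (1 - c) * μ`, `μ = (κ - c * l) / (1 - c)` a
  probability law; `psi_add_le` and `psi_nonneg`. For `c = 1` we get `κ = l` (equal sums), trivial.
-/

set_option autoImplicit false
set_option linter.unusedSectionVars false

namespace Pool.Agent.H70.MX

open Finset
open scoped Classical

variable {G : Type} [Group G] [Fintype G]

theorem psi_cv_le {ρ κ l : G → ℝ} (hρ : IsP ρ) (hs : iv ρ = ρ) (hκ : IsP κ) (hl : IsP l) :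
    psi ρ (cv κ l) ≤ psi ρ κ + psi ρ l := by
  have h := ruzsa (a := cv ρ κ) (b := cv l ρ) (v := ρ) (hρ.cv hκ) (hl.cv hρ) hρ
  rw [hs] at h
  have e1 : cv (cv ρ (cv κ l)) ρ = cv (cv ρ κ) (cv l ρ) := by
    rw [← cv_assoc ρ κ l, cv_assoc (cv ρ κ) l ρ]
  have e2 : cv (cv ρ l) ρ = cv ρ (cv l ρ) := cv_assoc ρ l ρ
  unfold psi
  rw [e1, e2]
  linarith

theorem psi_iv {ρ : G → ℝ} (hs : iv ρ = ρ) (κ : G → ℝ) : psi ρ (iv κ) = psi ρ κ := by
  unfold psi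
  rw [← Ent_iv (cv (cv ρ κ) ρ), iv_cv, iv_cv, hs, cv_assoc]

theorem psi_nonneg {ρ κ : G → ℝ} (hρ : IsP ρ) (hκ : IsP κ) : 0 ≤ psi ρ κ := by
  have h := Ent_le_cv_right (f := cv ρ κ) (g := ρ) (hρ.cv hκ) hρ.1
  unfold psi
  linarith

theorem psi_sum_le {ι : Type} (s : Finset ι) (w : ι → ℝ) (f : ι → G → ℝ) {ρ : G → ℝ}
    (hρ : IsP ρ) (hw : ∀ i ∈ s, 0 ≤ w i) (hw1 : ∑ i ∈ s, w i = 1) (hf : ∀ i ∈ s, IsP (f i)) :
    ∑ i ∈ s, w i * psi ρ (f i) ≤ psi ρ (fun x => ∑ i ∈ s, w i * f i x) := by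
  have h := Ent_concave s w (fun i => cv (cv ρ (f i)) ρ) hw hw1
    (fun i hi x => cv_nonneg (cv_nonneg hρ.1 (hf i hi).1) hρ.1 x)
  unfold psi
  rw [cv_sum_right, cv_sum_left]
  have e : ∑ i ∈ s, w i * (Ent (cv (cv ρ (f i)) ρ) - Ent ρ)
      = ∑ i ∈ s, w i * Ent (cv (cv ρ (f i)) ρ) - Ent ρ := by
    simp only [mul_sub]
    rw [Finset.sum_sub_distrib, ← Finset.sum_mul, hw1, one_mul]
  rw [e]
  linarith

theorem psi_add_le (a b : ℝ) (ha : 0 ≤ a) (hb : 0 ≤ b) (hab : a + b = 1) {ρ f g : G → ℝ}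
    (hρ : IsP ρ) (hf : IsP f) (hg : IsP g) :
    a * psi ρ f + b * psi ρ g ≤ psi ρ (fun x => a * f x + b * g x) := by
  have h := Ent_concave₂ a b (cv (cv ρ f) ρ) (cv (cv ρ g) ρ) ha hb hab
    (fun x => cv_nonneg (cv_nonneg hρ.1 hf.1) hρ.1 x)
    (fun x => cv_nonneg (cv_nonneg hρ.1 hg.1) hρ.1 x)
  unfold psi
  rw [cv_add_right, cv_add_left]
  have e : a * (Ent (cv (cv ρ f) ρ) - Ent ρ) + b * (Ent (cv (cv ρ g) ρ) - Ent ρ)
      = a * Ent (cv (cv ρ f) ρ) + b * Ent (cv (cv ρ g) ρ) - Ent ρ := by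
    have : a * (Ent (cv (cv ρ f) ρ) - Ent ρ) + b * (Ent (cv (cv ρ g) ρ) - Ent ρ)
      = a * Ent (cv (cv ρ f) ρ) + b * Ent (cv (cv ρ g) ρ) - (a + b) * Ent ρ := by ring
    rw [this, hab, one_mul]
  rw [e]
  linarith

theorem psi_sub_le {ρ κ l : G → ℝ} (hρ : IsP ρ) (hs : iv ρ = ρ) (hκ : IsP κ) (hl : IsP l) :
    psi ρ l - psi ρ κ ≤ psi ρ (cv κ l) := by
  have h1 : ∑ y, κ y * psi ρ (cv (dl y) l) ≤ psi ρ (cv κ l) := by
    have h := psi_sum_le Finset.univ κ (fun y => cv (dl y) l) hρ (fun y _ => hκ.1 y) hκ.2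
      (fun y _ => (dl_isP y).cv hl)
    rw [cv_eq_sum κ l]
    exact h
  have h2 : ∑ y, κ y * psi ρ (dl y) ≤ psi ρ κ := by
    have h := psi_sum_le Finset.univ κ (fun y => dl y) hρ (fun y _ => hκ.1 y) hκ.2
      (fun y _ => dl_isP y)
    have e : (fun x => ∑ y, κ y * dl y x) = κ := by
      funext x
      unfold dl
      simp
    rw [e] at h
    exact h
  have h3 : ∀ y, psi ρ l ≤ psi ρ (dl y) + psi ρ (cv (dl y) l) := by
    intro y
    have h := psi_cv_le (κ := dl y⁻¹) (l := cv (dl y) l) hρ hs (dl_isP _) ((dl_isP y).cv hl)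
    have e1 : cv (dl y⁻¹) (cv (dl y) l) = l := by
      rw [← cv_assoc, dl_cv_dl, inv_mul_cancel, dl_one_cv]
    have e2 : psi ρ (dl y⁻¹) = psi ρ (dl y) := by
      rw [← iv_dl, psi_iv hs]
    rw [e1, e2] at h
    exact h
  have h4 : psi ρ l ≤ ∑ y, κ y * psi ρ (dl y) + ∑ y, κ y * psi ρ (cv (dl y) l) := by
    have e : psi ρ l = ∑ y, κ y * psi ρ l := by
      rw [← Finset.sum_mul, hκ.2, one_mul]
    rw [← Finset.sum_add_distrib]
    conv_lhs => rw [e]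
    refine Finset.sum_le_sum fun y _ => ?_
    rw [← mul_add]
    exact mul_le_mul_of_nonneg_left (h3 y) (hκ.1 y)
  linarith

theorem psi_le_of_ge {ρ κ l : G → ℝ} (hρ : IsP ρ) (hκ : IsP κ) (hl : IsP l) (c : ℝ) (hc : 0 ≤ c)
    (h : ∀ x, c * l x ≤ κ x) : c * psi ρ l ≤ psi ρ κ := by
  have hc1 : c ≤ 1 := by
    have := Finset.sum_le_sum fun x (_ : x ∈ (Finset.univ : Finset G)) => h x
    rw [← Finset.mul_sum, hl.2, hκ.2, mul_one] at this
    exact this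
  rcases hc1.lt_or_eq with h1 | h1
  · have h1' : 0 < 1 - c := by linarith
    set μ : G → ℝ := fun x => (κ x - c * l x) / (1 - c) with hμ
    have hμP : IsP μ := by
      refine ⟨fun x => div_nonneg (by linarith [h x]) h1'.le, ?_⟩
      rw [hμ]
      simp only
      rw [← Finset.sum_div, Finset.sum_sub_distrib, ← Finset.mul_sum, hl.2, hκ.2, mul_one]
      exact div_self h1'.ne'
    have e : (fun x => c * l x + (1 - c) * μ x) = κ := by
      funext x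
      rw [hμ]
      field_simp
      ring
    have h2 := psi_add_le c (1 - c) hc h1'.le (by ring) hρ hl hμP
    rw [e] at h2
    have h3 : 0 ≤ (1 - c) * psi ρ μ := mul_nonneg h1'.le (psi_nonneg hρ hμP)
    linarith
  · subst h1
    have e : l = κ := by
      have h2 : ∀ x ∈ (Finset.univ : Finset G), l x ≤ κ x := fun x _ => by
        have := h x
        linarith
      have h3 := (Finset.sum_eq_sum_iff_of_le h2).1 (by rw [hl.2, hκ.2])
      funext x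
      exact h3 x (Finset.mem_univ x)
    rw [e, one_mul]

end Pool.Agent.H70.MX
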