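import Pool.Agent.H70.MX.Conv

/-!
# MX-1. The entropic Ruzsa inequality `Ent (a * b) + Ent v ≤ Ent (a * v) + Ent (v⁻¹ * b)`

Proof (complete).  Put `J x z = Σ α, a α * v (α⁻¹ * x) * b (α⁻¹ * z)` (the joint law of `X = A V` and `Z = A B`,
where `A ~ a`, `B ~ b`, `V ~ v` are independent).

(1) LOWER BOUND `Ent v + Ent (cv a b) ≤ Σ z, Σ x, negMulLog (J x z)`.
Put `Z z = cv a b z = Σ α, a α * b (α⁻¹ * z) ≥ 0`. Fix `z`. If `Z z = 0` then all `a α * b (α⁻¹ * z) = 0`, so `J x z = 0`
for all `x` and both sides of `Z z * Ent v + negMulLog (Z z) ≤ Σ x, negMulLog (J x z)` vanish.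
If `Z z > 0` put `m α = a α * b (α⁻¹ * z) / Z z`, a probability law (`IsP m`), and `J x z = Z z * cv m v x`.
`Real.negMulLog_mul : negMulLog (x * y) = y * negMulLog x + x * negMulLog y` gives
`Σ x, negMulLog (J x z) = (Σ x, cv m v x) * negMulLog (Z z) + Z z * Ent (cv m v) ≥ negMulLog (Z z) + Z z * Ent v`
by `Ent_le_cv_right` (and `sum_cv`: the sum of `cv m v` is `1`). Sum over `z`, `Σ z, Z z = 1`.

(2) UPPER BOUND `Σ z, Σ x, negMulLog (J x z) ≤ Ent (cv a v) + Ent (cv (iv v) b)`.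
For fixed `x` substitute `z = x * y` (`sum_left`): the left side is `Ent` of the law `J' (x, y) = J x (x * y)` on `G × G`.
Marginals: `Σ y, J x (x * y) = Σ z, J x z = Σ α, a α * v (α⁻¹ * x) = cv a v x` (as `Σ z, b (α⁻¹ * z) = 1`) and
`Σ x, J x (x * y) = Σ α, a α * Σ w, v w * b (w * y)` (substitute `w = α⁻¹ * x`) `= Σ w, v w * b (w * y) = cv (iv v) b y`
(substitute `w = u⁻¹`). Gibbs' inequality (`gibbs` on `X = G × G`, `f = J'`, `g (x, y) = cv a v x * cv (iv v) b y`;
if `g (x, y) = 0` then one of the marginals vanishes and hence `J' (x, y) = 0`; the total masses are `1`) gives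
`Ent J' ≤ - Σ J' log (g)`, and `J' * log g = J' * log (cv a v x) + J' * log (cv (iv v) b y)` (also where `J' = 0`), so
the right side is `Ent (cv a v) + Ent (cv (iv v) b)` by summing out the other variable
(`Ent f = - Σ f log f`, `Real.negMulLog x = - x * log x`).
-/

set_option autoImplicit false
set_option linter.unusedSectionVars false

namespace Pool.Agent.H70.MX

open Finset
open scoped Classical

variable {G : Type} [Group G] [Fintype G]

/-- the joint law of `A V` and `A B` -/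
noncomputable def ruzsaJ (a b v : G → ℝ) (x z : G) : ℝ :=
  ∑ α, a α * (v (α⁻¹ * x) * b (α⁻¹ * z))

theorem ruzsaJ_nonneg {a b v : G → ℝ} (ha : IsP a) (hb : IsP b) (hv : IsP v) (x z : G) :
    0 ≤ ruzsaJ a b v x z :=
  Finset.sum_nonneg fun _ _ => mul_nonneg (ha.1 _) (mul_nonneg (hv.1 _) (hb.1 _))

theorem ruzsa_low {a b v : G → ℝ} (ha : IsP a) (hb : IsP b) (hv : IsP v) (z : G) :
    cv a b z * Ent v + Real.negMulLog (cv a b z) ≤
      ∑ x, Real.negMulLog (ruzsaJ a b v x z) := by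
  have hZ : 0 ≤ cv a b z := cv_nonneg ha.1 hb.1 z
  rcases hZ.lt_or_eq with hpos | h0
  · set Z := cv a b z with hZdef
    set m : G → ℝ := fun α => a α * b (α⁻¹ * z) / Z with hm
    have hmP : IsP m := by
      refine ⟨fun α => div_nonneg (mul_nonneg (ha.1 _) (hb.1 _)) hZ, ?_⟩
      have : ∑ α, m α = (∑ α, a α * b (α⁻¹ * z)) / Z := by
        rw [Finset.sum_div]
      rw [this]
      exact div_self hpos.ne'
    have hJ : ∀ x, ruzsaJ a b v x z = Z * cv m v x := by
      intro x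
      unfold ruzsaJ cv
      rw [Finset.mul_sum]
      refine Finset.sum_congr rfl fun α _ => ?_
      rw [hm]
      field_simp
    have h1 : ∑ x, Real.negMulLog (ruzsaJ a b v x z) =
        (∑ x, cv m v x) * Real.negMulLog Z + Z * Ent (cv m v) := by
      unfold Ent
      rw [Finset.sum_mul, Finset.mul_sum, ← Finset.sum_add_distrib]
      refine Finset.sum_congr rfl fun x _ => ?_
      rw [hJ x, Real.negMulLog_mul]
    rw [h1, (hmP.cv hv).2, one_mul]
    have h2 := mul_le_mul_of_nonneg_left (Ent_le_cv_right hmP hv.1) hZ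
    linarith
  · have h1 : ∀ α, a α * b (α⁻¹ * z) = 0 := by
      intro α
      have h2 : ∑ α, a α * b (α⁻¹ * z) = 0 := h0.symm
      exact (Finset.sum_eq_zero_iff_of_nonneg
        (fun α _ => mul_nonneg (ha.1 α) (hb.1 _))).1 h2 α (Finset.mem_univ α)
    have h2 : ∀ x, ruzsaJ a b v x z = 0 := by
      intro x
      unfold ruzsaJ
      refine Finset.sum_eq_zero fun α _ => ?_
      have : a α * (v (α⁻¹ * x) * b (α⁻¹ * z)) = (a α * b (α⁻¹ * z)) * v (α⁻¹ * x) := by ring
      rw [this, h1, zero_mul]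
    rw [← h0]
    simp [h2]

theorem ruzsa_m1 {a b v : G → ℝ} (hb : IsP b) (x : G) :
    ∑ y, ruzsaJ a b v x (x * y) = cv a v x := by
  rw [sum_left (fun y => ruzsaJ a b v x y) x]
  unfold ruzsaJ cv
  rw [Finset.sum_comm]
  refine Finset.sum_congr rfl fun α _ => ?_
  have : ∀ z, a α * (v (α⁻¹ * x) * b (α⁻¹ * z)) = (a α * v (α⁻¹ * x)) * b (α⁻¹ * z) :=
    fun z => by ring
  simp only [this]
  rw [← Finset.mul_sum, sum_left b, hb.2, mul_one]

theorem ruzsa_m2 {a b v : G → ℝ} (ha : IsP a) (y : G) :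
    ∑ x, ruzsaJ a b v x (x * y) = cv (iv v) b y := by
  have h1 : cv (iv v) b y = ∑ w, v w * b (w * y) := by
    unfold cv iv
    rw [← Equiv.sum_comp (Equiv.inv G) (fun w => v w * b (w * y))]
    rfl
  unfold ruzsaJ
  rw [Finset.sum_comm, h1]
  have h2 : ∀ α, ∑ x, a α * (v (α⁻¹ * x) * b (α⁻¹ * (x * y))) =
      a α * ∑ w, v w * b (w * y) := by
    intro α
    rw [← Finset.mul_sum, ← sum_left (fun w => v w * b (w * y)) α⁻¹]
    congr 1
    refine Finset.sum_congr rfl fun x _ => ?_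
    rw [mul_assoc]
  simp only [h2]
  rw [← Finset.sum_mul, ha.2, one_mul]

theorem ruzsa_up {a b v : G → ℝ} (ha : IsP a) (hb : IsP b) (hv : IsP v) :
    ∑ z, ∑ x, Real.negMulLog (ruzsaJ a b v x z) ≤ Ent (cv a v) + Ent (cv (iv v) b) := by
  set f : G × G → ℝ := fun p => ruzsaJ a b v p.1 (p.1 * p.2) with hf
  have hJ0 : ∀ x y, 0 ≤ ruzsaJ a b v x (x * y) := fun x y => ruzsaJ_nonneg ha hb hv _ _
  have hP1 := ha.cv hv
  have hP2 := (iv_isP hv).cv hb
  have h0 : ∑ z, ∑ x, Real.negMulLog (ruzsaJ a b v x z) = Ent f := by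
    unfold Ent
    rw [Fintype.sum_prod_type, Finset.sum_comm]
    refine Finset.sum_congr rfl fun x _ => ?_
    exact (sum_left (fun y => Real.negMulLog (ruzsaJ a b v x y)) x).symm
  have hz1 : ∀ x y, cv a v x = 0 → ruzsaJ a b v x (x * y) = 0 := by
    intro x y h
    rw [← ruzsa_m1 (a := a) (v := v) hb x] at h
    exact (Finset.sum_eq_zero_iff_of_nonneg (fun y _ => hJ0 x y)).1 h y (Finset.mem_univ y)
  have hz2 : ∀ x y, cv (iv v) b y = 0 → ruzsaJ a b v x (x * y) = 0 := by
    intro x y h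
    rw [← ruzsa_m2 (b := b) (v := v) ha y] at h
    exact (Finset.sum_eq_zero_iff_of_nonneg (fun x _ => hJ0 x y)).1 h x (Finset.mem_univ x)
  have hG := gibbs (f := f) (g := fun p => cv a v p.1 * cv (iv v) b p.2)
    (fun p => hJ0 p.1 p.2) (fun p => mul_nonneg (hP1.1 _) (hP2.1 _))
    (fun p hp => by
      rcases mul_eq_zero.1 hp with h | h
      · exact hz1 _ _ h
      · exact hz2 _ _ h)
    (by
      rw [Fintype.sum_prod_type, Fintype.sum_prod_type]
      simp only [← Finset.mul_sum, hP2.2, mul_one, hP1.2, hf]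
      simp only [ruzsa_m1 hb]
      rw [hP1.2])
  rw [h0]
  refine hG.trans (le_of_eq ?_)
  have hlog : ∀ p : G × G, f p * Real.log (cv a v p.1 * cv (iv v) b p.2) =
      f p * Real.log (cv a v p.1) + f p * Real.log (cv (iv v) b p.2) := by
    intro p
    by_cases h1 : cv a v p.1 = 0
    · rw [show f p = 0 from hz1 _ _ h1]
      simp
    · by_cases h2 : cv (iv v) b p.2 = 0
      · rw [show f p = 0 from hz2 _ _ h2]
        simp
      · rw [Real.log_mul h1 h2]
        ring
  simp only [hlog]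
  rw [Finset.sum_add_distrib, neg_add]
  congr 1
  · rw [Fintype.sum_prod_type]
    unfold Ent
    rw [← Finset.sum_neg_distrib]
    refine Finset.sum_congr rfl fun x _ => ?_
    simp only [hf]
    rw [← Finset.sum_mul, ruzsa_m1 hb]
    unfold Real.negMulLog
    ring
  · rw [Fintype.sum_prod_type_right]
    unfold Ent
    rw [← Finset.sum_neg_distrib]
    refine Finset.sum_congr rfl fun x _ => ?_
    simp only [hf]
    rw [← Finset.sum_mul, ruzsa_m2 ha]
    unfold Real.negMulLog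
    ring

theorem ruzsa {a b v : G → ℝ} (ha : IsP a) (hb : IsP b) (hv : IsP v) :
    Ent (cv a b) + Ent v ≤ Ent (cv a v) + Ent (cv (iv v) b) := by
  refine le_trans ?_ (ruzsa_up ha hb hv)
  have h := Finset.sum_le_sum fun z (_ : z ∈ (Finset.univ : Finset G)) => ruzsa_low ha hb hv z
  rw [Finset.sum_add_distrib, ← Finset.sum_mul, (ha.cv hb).2, one_mul] at h
  unfold Ent at h ⊢
  linarith

end Pool.Agent.H70.MX
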